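import Pool.Agent.Helper78_NDM.Stmts

/-!
# Module DAT: formulas for all nonempty sets of forms
-/

set_option autoImplicit false
set_option linter.unusedVariables false
set_option linter.unusedSectionVars false

namespace Pool.Agent.NDM.H78

open PowerSeries Finset Pool.Agent.Helper6_Mono Pool.Agent.Helper32_OMP

section

variable {k : Type} [Field k] {σ ι : Type} [Fintype σ] {R : Type 1} [CommRing R] {L0 : Rˣ}

theorem steps_mono {S T : Set ℚ} (h : S ⊆ T) : steps S ⊆ steps T :=
  fun p hp => ⟨hp.1, h hp.2⟩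

theorem hasDat_mono {L : ι → σ → k} {m : ι → ℕ} {F : Finset ι} {S T : Set ℚ} (hST : S ⊆ T)
    (h : HasDat L0 L m F S) : HasDat L0 L m F T := by
  obtain ⟨D, hD⟩ := h
  exact ⟨⟨D.Λ, D.fin, D.P, D.ft, D.g, D.e, D.epos, D.edvd, D.c,
    fun a => RP.mono (steps_mono hST) (D.rp a)⟩, hD⟩

theorem spn_mono {L : ι → σ → k} {A B : Finset ι} (h : A ⊆ B) : spn L A ≤ spn L B :=
  Submodule.span_mono (Set.image_mono (by exact_mod_cast h))

theorem ClIn.trans {L : ι → σ → k} {F G W : Finset ι} (h1 : ClIn L F G) (h2 : ClIn L G W) :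
    ClIn L F W :=
  ⟨h2.1.trans h1.1, fun i hi hiW => h2.2 i (h1.2 i hi (spn_mono h2.1 hiW)) hiW⟩

/-- the slopes of `F` -/
def slp (L : ι → σ → k) (m : ι → ℕ) (F : Finset ι) : Set ℚ :=
  {q | ∃ W : Finset ι, W.Nonempty ∧ ClIn L F W ∧ ConnS L W ∧
    q = (rk L W : ℚ) / ((∑ i ∈ W, m i : ℕ) : ℚ)}

theorem slp_mono {L : ι → σ → k} {m : ι → ℕ} {F G : Finset ι} (h : ClIn L F G) :
    slp L m G ⊆ slp L m F := by
  rintro q ⟨W, h1, h2, h3, h4⟩
  exact ⟨W, h1, ClIn.trans h h2, h3, h4⟩

theorem clIn_left {L : ι → σ → k} {F A B : Finset ι} (hd : Disjoint (spn L A) (spn L B))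
    (hF : ∀ i, i ∈ F ↔ i ∈ A ∨ i ∈ B) (h0 : ∀ i ∈ F, L i ≠ 0) : ClIn L F A := by
  refine ⟨fun i hi => (hF i).2 (Or.inl hi), fun i hi hiA => ?_⟩
  rcases (hF i).1 hi with h | h
  · exact h
  · have h1 : L i ∈ spn L B := Submodule.subset_span ⟨i, h, rfl⟩
    exact absurd (Submodule.disjoint_def.1 hd _ hiA h1) (h0 i hi)

end

theorem dat (hN : Dn2Stmt) (hP : PrdStmt) : DatStmt := by
  intro k _ σ ι _ _ R _ L0 L m hm
  have key : ∀ (n : ℕ) (F : Finset ι), F.card ≤ n → F.Nonempty → (∀ i ∈ F, L i ≠ 0) →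
      HasDat L0 L m F (slp L m F) := by
    intro n
    induction n with
    | zero =>
      intro F hc hF _
      exact absurd (Finset.card_pos.2 hF) (by omega)
    | succ n ih =>
      intro F hc hF h0
      by_cases hcon : ConnS L F
      · have h1 : ∀ G, ClIn L F G → G.Nonempty → G ≠ F → HasDat L0 L m G (slp L m F) := by
          intro G hG hGn hGF
          have hlt : G.card < F.card := Finset.card_lt_card (hG.1.ssubset_of_ne hGF)
          exact hasDat_mono (slp_mono hG) (ih G (by omega) hGn fun i hi => h0 i (hG.1 hi))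
        have h2 := hN k σ ι R L0 L m F (slp L m F) hF hm h0 h1
        refine hasDat_mono ?_ h2
        rintro q (hq | hq)
        · exact hq
        · refine ⟨F, hF, ⟨Finset.Subset.refl F, fun i hi _ => hi⟩, hcon, hq⟩
      · unfold ConnS at hcon
        push Not at hcon
        obtain ⟨A, B, hA, hB, hAB, hF', hd⟩ := hcon
        have hFe : F = A ∪ B := by
          ext i
          rw [hF' i, Finset.mem_union]
        have hAF : A ⊆ F := fun i hi => (hF' i).2 (Or.inl hi)
        have hBF : B ⊆ F := fun i hi => (hF' i).2 (Or.inr hi)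
        have hcard : F.card = A.card + B.card := by
          rw [hFe, Finset.card_union_of_disjoint hAB]
        have hAc := Finset.card_pos.2 hA
        have hBc := Finset.card_pos.2 hB
        have h1 := ih A (by omega) hA fun i hi => h0 i (hAF hi)
        have h2 := ih B (by omega) hB fun i hi => h0 i (hBF hi)
        have h3 := hP k σ ι R L0 L m A B _ _ hAB hd h1 h2
        rw [← hFe] at h3
        refine hasDat_mono ?_ h3
        have cA : ClIn L F A := clIn_left hd hF' h0
        have cB : ClIn L F B := clIn_left hd.symm (fun i => (hF' i).trans or_comm) h0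
        exact Set.union_subset (slp_mono cA) (slp_mono cB)
  intro F hF h0
  exact key F.card F le_rfl hF h0

end Pool.Agent.NDM.H78
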