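import Pool.Agent.Helper78_NDM.Stmts
import Pool.Agent.Helper6_Mono.Van

/-!
# Module DN1: one step of the recursion
-/

set_option autoImplicit false
set_option linter.unusedVariables false
set_option linter.unusedSectionVars false

namespace Pool.Agent.NDM.H78

open PowerSeries Finset Pool.Agent.Helper6_Mono Pool.Agent.Helper32_OMP

section

variable {k : Type} [Field k] {β : Type} {wβ : β → QZ} {R : Type 1} [CommRing R] {L0 : Rˣ}

theorem EE_congr (χ : SInv k wβ L0) (Y : Over k QZ β wβ) {wu : QZ} (u : NF Y.F wu) (P : GF k QZ)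
    (g : NF P 0) (e : ℕ) {w w' : QZ} (hw : w = w') (h : wu + e • w = 0) (h' : wu + e • w' = 0) :
    χ.χ (EE Y u P g e w h) = χ.χ (EE Y u P g e w' h') := by
  subst hw
  rfl

theorem div_mul_div' {g e N : ℕ} (hg : g ∣ e) (he : e ∣ N) (h0 : 0 < e) :
    e / g * (N / e) = N / g := by
  obtain ⟨e', rfl⟩ := hg
  obtain ⟨N', rfl⟩ := he
  have hg : 0 < g := Nat.pos_of_mul_pos_right h0 |> fun h => by
    rcases Nat.eq_zero_or_pos g with h1 | h1
    · rw [h1, zero_mul] at h0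
      exact absurd h0 (lt_irrefl 0)
    · exact h1
  rw [Nat.mul_div_cancel_left _ hg, Nat.mul_div_cancel_left _ h0, mul_assoc,
    Nat.mul_div_cancel_left _ hg]

theorem weight_id {d e mG mF M : ℕ} (θ ω : QZ) (h0 : 0 < e) (hG : e ∣ mG) (hM : e ∣ M)
    (hF : mF = d + mG) :
    (d / Nat.gcd d e) • θ + (e / Nat.gcd d e) • ((mG / e) • θ + (M / e) • ω)
      = (mF / Nat.gcd d e) • θ + (M / Nat.gcd d e) • ω := by
  have h1 := Nat.gcd_dvd_left d e
  have h2 := Nat.gcd_dvd_right d e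
  rw [smul_add, smul_smul, smul_smul, div_mul_div' h2 hG h0, div_mul_div' h2 hM h0, ← add_assoc,
    ← add_smul, hF, Nat.add_div_of_dvd_right h1]

/-- the periodic indicator sequence -/
theorem RP_ind {S : Set ℚ} {c : ℕ → R} (hc : RP L0 (steps S) c) {e : ℕ} (he : 0 < e) :
    RP L0 (steps S) (fun M => if e ∣ M then c M else 0) := by
  have h1 : RP L0 (steps {0}) (fun M => if e ∣ M then (1 : R) else 0) := by
    refine .step _ 0 e ⟨he, by simp⟩ (.fin _ 0 fun M _ => ?_)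
    have h2 : e ∣ M + e ↔ e ∣ M := Nat.dvd_add_left (dvd_refl e)
    by_cases hM : e ∣ M
    · rw [if_pos hM, if_pos (h2.2 hM)]
      simp
    · rw [if_neg hM, if_neg (fun h => hM (h2.1 h))]
      simp
  refine ((h1.hadamard hc).mono ?_).congr fun M => ?_
  · rintro p ⟨hp, y, hy, z, hz, h⟩
    refine ⟨hp, ?_⟩
    rw [Set.mem_singleton_iff] at hy
    rw [h, hy, zero_add]
    exact hz
  · split_ifs
    · rw [one_mul]
    · rw [zero_mul]

end

section

variable {k : Type} [Field k] {σ ι : Type} [Fintype σ] [DecidableEq ι] {R : Type 1} [CommRing R]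
  {L0 : Rˣ}

/-- the new formula -/
noncomputable def newDat {L : ι → σ → k} {m : ι → ℕ} {F : Finset ι} {S : Set ℚ}
    (hm : ∀ i, 0 < m i) (𝒢 : Finset (Finset ι)) (h𝒢 : ∀ G ∈ 𝒢, G ⊆ F)
    (D : ∀ G : 𝒢, Dat k L0 (∑ i ∈ (G : Finset ι), m i) S) (i0 : 𝒢 → ι) (i1 : ι) (hF : F.Nonempty) :
    Dat k L0 (∑ i ∈ F, m i) S where
  Λ := Option (Σ G : 𝒢, (D G).Λ)
  fin := by
    letI : ∀ G : 𝒢, Fintype ((D G).Λ) := fun G => (D G).fin
    infer_instance
  P o := match o with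
    | none => PS L F ∅ i1
    | some ⟨G, a⟩ => (PS L F G (i0 G)).prod ((D G).P a)
  ft o := match o with
    | none => FT_PS L F ∅ i1
    | some ⟨G, a⟩ => (FT_PS L F G (i0 G)).prod ((D G).ft a)
  g o := match o with
    | none => gP L m F ∅ i1
    | some ⟨G, a⟩ => gg (gP L m F G (i0 G)) ((D G).g a)
  e o := match o with
    | none => ∑ i ∈ F \ ∅, m i
    | some ⟨G, a⟩ => Nat.gcd (∑ i ∈ F \ G, m i) ((D G).e a)
  epos o := match o with
    | none => by
      show 0 < ∑ i ∈ F \ ∅, m i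
      rw [Finset.sdiff_empty]
      exact Finset.sum_pos (fun i _ => hm i) hF
    | some ⟨G, a⟩ => Nat.gcd_pos_of_pos_right _ ((D G).epos a)
  edvd o := match o with
    | none => by
      show ∑ i ∈ F \ ∅, m i ∣ _
      rw [Finset.sdiff_empty]
    | some ⟨G, a⟩ => by
      show Nat.gcd (∑ i ∈ F \ G, m i) ((D G).e a) ∣ _
      rw [← Finset.sum_sdiff (h𝒢 G G.2)]
      exact dvd_add (Nat.gcd_dvd_left _ _) ((Nat.gcd_dvd_right _ _).trans ((D G).edvd a))
  c o := match o with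
    | none => fun M => if M = 0 then Li L0 ^ Fintype.card σ else 0
    | some ⟨G, a⟩ => fun M => Li L0 ^ Fintype.card σ * ((L0 : R) - 1) *
        (if (D G).e a ∣ M then (D G).c a M else 0)
  rp o := match o with
    | none => RP.single _ 0
    | some ⟨G, a⟩ => (RP_ind ((D G).rp a) ((D G).epos a)).smul _

end

theorem dn1 (hScl : SclStmt) (hSts : StsStmt) (hEmp : EmpStmt) (hKer : KerStmt) (hBas : BasStmt)
    (hGms : GmsStmt) : Dn1Stmt := by
  intro k _ σ ι _ _ R _ L0 L m F S hF hm hL hG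
  classical
  obtain ⟨n, hn⟩ : ∃ n, n = Fintype.card σ := ⟨_, rfl⟩
  obtain ⟨i1, hi1⟩ := hF
  obtain ⟨𝒢, h𝒢⟩ : ∃ 𝒢 : Finset (Finset ι), ∀ G, G ∈ 𝒢 ↔ ClIn L F G ∧ G.Nonempty ∧ G ≠ F :=
    ⟨F.powerset.filter fun G => ClIn L F G ∧ G.Nonempty ∧ G ≠ F, fun G => by
      rw [Finset.mem_filter, Finset.mem_powerset]
      exact ⟨fun h => h.2, fun h => ⟨h.1.1, h⟩⟩⟩
  have hsub : ∀ G ∈ 𝒢, G ⊆ F := fun G h => ((h𝒢 G).1 h).1.1
  have hD0 : ∀ G : 𝒢, HasDat L0 L m (G : Finset ι) S := fun G =>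
    hG G ((h𝒢 G).1 G.2).1 ((h𝒢 G).1 G.2).2.1 ((h𝒢 G).1 G.2).2.2
  choose D hD using hD0
  have hi0 : ∀ G : 𝒢, ∃ i, i ∈ F ∧ i ∉ (G : Finset ι) := by
    intro G
    by_contra hcon
    push Not at hcon
    exact ((h𝒢 G).1 G.2).2.2 (Finset.Subset.antisymm (hsub G G.2) hcon)
  choose i0 hi0 using hi0
  have hmF : 0 < ∑ i ∈ F, m i := Finset.sum_pos (fun i _ => hm i) ⟨i1, hi1⟩
  refine ⟨newDat (L := L) hm 𝒢 hsub D i0 i1 ⟨i1, hi1⟩, ?_⟩
  intro β wβ χ Y hY wu u ω θ
  have hscl := hScl k σ ι β wβ R L0 χ L m F hmF Y hY wu u ω θ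
  refine ⟨fun M h hM => hscl.1 M h hM, fun M h h' => ?_⟩
  obtain ⟨t, ht⟩ : ∃ t : Finset ι → R, t = fun G => if hG : G ⊆ F then
      χ.χ (JJ L m G M ω (θ + ω) (Y.times (SS L F G (θ + ω))) (ug Y u (gS L m F G (θ + ω)))
        (hstr hG m h')) else 0 := ⟨_, rfl⟩
  have e1 : Li L0 ^ (Fintype.card σ * (M + ∑ i ∈ F, m i)) *
      χ.χ (JJ L m F (M + ∑ i ∈ F, m i) ω θ Y u h)
      = Li L0 ^ (Fintype.card σ * (M + 1)) * ∑ G ∈ F.powerset, t G := by
    rw [hscl.2 M h h', hSts k σ ι β wβ R L0 χ L m F Y hY wu u M ω (θ + ω) h', ht]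
    have h1 : Fintype.card σ * (M + ∑ i ∈ F, m i)
        = Fintype.card σ * (M + 1) + Fintype.card σ * (∑ i ∈ F, m i - 1) := by
      rw [← mul_add]
      congr 1
      omega
    have h2 : Li L0 ^ (Fintype.card σ * (∑ i ∈ F, m i - 1)) *
        (L0 : R) ^ (Fintype.card σ * (∑ i ∈ F, m i - 1)) = 1 := by
      rw [← mul_pow, Li, Units.inv_mul, one_pow]
    have h3 : ∀ x : R, Li L0 ^ (Fintype.card σ * (M + 1) + Fintype.card σ * (∑ i ∈ F, m i - 1)) *
        ((L0 : R) ^ (Fintype.card σ * (∑ i ∈ F, m i - 1)) * x)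
        = Li L0 ^ (Fintype.card σ * (M + 1)) * x := by
      intro x
      rw [pow_add]
      calc _ = Li L0 ^ (Fintype.card σ * (M + 1)) * (Li L0 ^ (Fintype.card σ *
          (∑ i ∈ F, m i - 1)) * (L0 : R) ^ (Fintype.card σ * (∑ i ∈ F, m i - 1))) * x := by ring
        _ = _ := by rw [h2, mul_one]
    rw [h1]
    exact h3 _
  have hnot : ∀ G ∈ F.powerset, G ∉ insert F (insert ∅ 𝒢) → t G = 0 := by
    intro G hGF hGn
    rw [Finset.mem_powerset] at hGF
    rw [Finset.mem_insert, Finset.mem_insert, not_or, not_or, h𝒢] at hGn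
    have h1 : ¬ ClIn L F G := fun h => hGn.2.2 ⟨h, Finset.nonempty_iff_ne_empty.2 hGn.2.1, hGn.1⟩
    have h2 : ∃ i ∈ F, L i ∈ spn L G ∧ i ∉ G := by
      by_contra hcon
      push Not at hcon
      exact h1 ⟨hGF, hcon⟩
    obtain ⟨i, hiF, his, hiG⟩ := h2
    rw [ht]
    show (if hG : G ⊆ F then _ else _) = _
    rw [dif_pos hGF]
    refine χ.empty (FT_JJ _ _ _ _ _ _ (hY.prod (FT_SS _ _ _ _)) _ _) fun S' _ _ x => ?_
    exact hEmp k σ ι L F G i hGF hiF hiG his (θ + ω) S' x.1.1.2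
  have e2 : ∑ G ∈ F.powerset, t G = t F + (t ∅ + ∑ G ∈ 𝒢, t G) := by
    have h1 : insert F (insert ∅ 𝒢) ⊆ F.powerset := by
      intro G hG'
      rw [Finset.mem_insert, Finset.mem_insert] at hG'
      rw [Finset.mem_powerset]
      rcases hG' with rfl | rfl | hG'
      · exact Finset.Subset.refl _
      · exact Finset.empty_subset _
      · exact hsub G hG'
    rw [← Finset.sum_subset h1 hnot, Finset.sum_insert, Finset.sum_insert]
    · rw [h𝒢]
      rintro ⟨-, h2, -⟩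
      exact Finset.not_nonempty_empty h2
    · rw [Finset.mem_insert, h𝒢]
      rintro (h2 | ⟨-, -, h2⟩)
      · rw [h2] at hi1
        exact absurd hi1 (Finset.notMem_empty _)
      · exact h2 rfl
  -- the term `G = F`
  have e3 : Li L0 ^ (Fintype.card σ * (M + 1)) * t F
      = Li L0 ^ rk L F * (Li L0 ^ (Fintype.card σ * M) * χ.χ (JJ L m F M ω (θ + ω) Y u h')) := by
    have h1 := hKer k σ ι β wβ R L0 χ L m F Y hY wu u M ω (θ + ω) h'
      (hstr (Finset.Subset.refl F) m h')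
    have h2 : t F = (L0 : R) ^ (Fintype.card σ - rk L F) * χ.χ (JJ L m F M ω (θ + ω) Y u h') := by
      rw [ht]
      show (if hG : F ⊆ F then _ else _) = _
      rw [dif_pos (Finset.Subset.refl F)]
      exact h1.2
    have h3 : Fintype.card σ * (M + 1)
        = Fintype.card σ * M + (rk L F + (Fintype.card σ - rk L F)) := by
      rw [Nat.add_sub_cancel' h1.1, mul_add, mul_one]
    have h4 : Li L0 ^ (Fintype.card σ - rk L F) * (L0 : R) ^ (Fintype.card σ - rk L F) = 1 := by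
      rw [← mul_pow, Li, Units.inv_mul, one_pow]
    rw [h2, h3, pow_add, pow_add]
    calc _ = Li L0 ^ rk L F * (Li L0 ^ (Fintype.card σ * M) *
        χ.χ (JJ L m F M ω (θ + ω) Y u h')) * (Li L0 ^ (Fintype.card σ - rk L F) *
          (L0 : R) ^ (Fintype.card σ - rk L F)) := by ring
      _ = _ := by rw [h4, mul_one]
  rw [e1, e2, mul_add, e3, mul_add]
  congr 1
  -- the formula
  let fG : ∀ G : 𝒢, Fintype ((D G).Λ) := fun G => (D G).fin
  have e4 : (newDat (L := L) hm 𝒢 hsub D i0 i1 ⟨i1, hi1⟩ : Dat k L0 (∑ i ∈ F, m i) S).val χ M ω (θ + ω) Y u h'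
      = (if he : (∑ i ∈ F \ ∅, m i) ∣ M then (if M = 0 then Li L0 ^ Fintype.card σ else 0) *
          χ.χ (EE Y u (PS L F ∅ i1) (gP L m F ∅ i1) (∑ i ∈ F \ ∅, m i)
            (((∑ i ∈ F, m i) / (∑ i ∈ F \ ∅, m i)) • (θ + ω) + (M / (∑ i ∈ F \ ∅, m i)) • ω)
            (hEE h' (by rw [Finset.sdiff_empty]) he)) else 0) +
        ∑ p : (Σ G : 𝒢, (D G).Λ), (if he : Nat.gcd (∑ i ∈ F \ p.1, m i) ((D p.1).e p.2) ∣ M then
          (Li L0 ^ Fintype.card σ * ((L0 : R) - 1) *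
            (if (D p.1).e p.2 ∣ M then (D p.1).c p.2 M else 0)) *
          χ.χ (EE Y u ((PS L F p.1 (i0 p.1)).prod ((D p.1).P p.2))
            (gg (gP L m F p.1 (i0 p.1)) ((D p.1).g p.2))
            (Nat.gcd (∑ i ∈ F \ p.1, m i) ((D p.1).e p.2))
            (((∑ i ∈ F, m i) / Nat.gcd (∑ i ∈ F \ p.1, m i) ((D p.1).e p.2)) • (θ + ω)
              + (M / Nat.gcd (∑ i ∈ F \ p.1, m i) ((D p.1).e p.2)) • ω)
            (hEE h' ((newDat (L := L) hm 𝒢 hsub D i0 i1 ⟨i1, hi1⟩ : Dat k L0 (∑ i ∈ F, m i) S).edvd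
              (some p)) he)) else 0) := by
    unfold Dat.val
    exact Fintype.sum_option _
  rw [e4]
  congr 1
  · -- the empty set
    have h1 : t ∅ = χ.χ (JJ L m ∅ M ω (θ + ω) (Y.times (SS L F ∅ (θ + ω)))
        (ug Y u (gS L m F ∅ (θ + ω))) (hstr (Finset.empty_subset F) m h')) := by
      rw [ht]
      show (if hG : ∅ ⊆ F then _ else _) = _
      rw [dif_pos (Finset.empty_subset F)]
    have hbas := hBas k σ ι β wβ R L0 χ L m (Y.times (SS L F ∅ (θ + ω)))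
      (hY.prod (FT_SS _ _ _ _)) _ (ug Y u (gS L m F ∅ (θ + ω))) ω (θ + ω)
    rcases Nat.eq_zero_or_pos M with hM | hM
    · subst hM
      have h0 : wu + (∑ i ∈ F \ ∅, m i) • (θ + ω) = 0 := by
        have := h'
        rw [zero_smul, add_zero] at this
        rwa [Finset.sdiff_empty]
      rw [h1, hbas.2 _ h0, dif_pos (Nat.dvd_zero _), if_pos rfl,
        (hGms k σ ι β wβ R L0 χ L m F ∅ i1 (Finset.empty_subset F) hi1 (Finset.notMem_empty _)
          (hm i1) Y hY wu u (θ + ω)).2 h0, zero_add, mul_one]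
      congr 1
      refine EE_congr χ Y u _ _ _ ?_ _ _
      have h2 : (∑ i ∈ F, m i) / (∑ i ∈ F \ ∅, m i) = 1 := by
        rw [Finset.sdiff_empty]
        exact Nat.div_self hmF
      rw [h2, Nat.zero_div, one_smul, zero_smul, add_zero]
    · rw [h1, hbas.1 M _ hM, mul_zero]
      split_ifs with h2 h3
      · omega
      · rw [zero_mul]
      · rfl
  · -- the nonempty proper closed sets
    rw [Finset.mul_sum, ← Finset.sum_coe_sort 𝒢, Fintype.sum_sigma]
    refine Finset.sum_congr rfl fun G _ => ?_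
    have h1 : t G = χ.χ (JJ L m G M ω (θ + ω) (Y.times (SS L F G (θ + ω)))
        (ug Y u (gS L m F G (θ + ω))) (hstr (hsub G G.2) m h')) := by
      rw [ht]
      show (if hG : (G : Finset ι) ⊆ F then _ else _) = _
      rw [dif_pos (hsub G G.2)]
    have h2 := hD G β wβ χ (Y.times (SS L F G (θ + ω))) (hY.prod (FT_SS _ _ _ _)) _
      (ug Y u (gS L m F G (θ + ω))) M ω (θ + ω) (hstr (hsub G G.2) m h')
    have h3 : Li L0 ^ (Fintype.card σ * (M + 1)) * t G = Li L0 ^ Fintype.card σ *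
        (Li L0 ^ (Fintype.card σ * M) * χ.χ (JJ L m G M ω (θ + ω) (Y.times (SS L F G (θ + ω)))
        (ug Y u (gS L m F G (θ + ω))) (hstr (hsub G G.2) m h'))) := by
      rw [h1, mul_add, mul_one, pow_add]
      ring
    rw [h3, h2]
    unfold Dat.val
    rw [Finset.mul_sum]
    refine Finset.sum_congr rfl fun a _ => ?_
    by_cases he : (D G).e a ∣ M
    · have he' : Nat.gcd (∑ i ∈ F \ G, m i) ((D G).e a) ∣ M := (Nat.gcd_dvd_right _ _).trans he
      rw [dif_pos he, dif_pos he', if_pos he]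
      have hsum : ∑ i ∈ F, m i = ∑ i ∈ F \ G, m i + ∑ i ∈ (G : Finset ι), m i :=
        (Finset.sum_sdiff (hsub G G.2)).symm
      have hw := weight_id (θ + ω) ω ((D G).epos a) ((D G).edvd a) he hsum
      have h5 : wu + Nat.gcd (∑ i ∈ F \ G, m i) ((D G).e a) • (((∑ i ∈ F \ G, m i) /
          Nat.gcd (∑ i ∈ F \ G, m i) ((D G).e a)) • (θ + ω) + ((D G).e a /
            Nat.gcd (∑ i ∈ F \ G, m i) ((D G).e a)) •
              (((∑ i ∈ (G : Finset ι), m i) / (D G).e a) • (θ + ω) + (M / (D G).e a) • ω)) = 0 := by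
        rw [hw]
        refine hEE h' ?_ he'
        rw [hsum]
        exact dvd_add (Nat.gcd_dvd_left _ _) ((Nat.gcd_dvd_right _ _).trans ((D G).edvd a))
      have h4 := (hGms k σ ι β wβ R L0 χ L m F G (i0 G) (hsub G G.2) (hi0 G).1 (hi0 G).2
          (hm _) Y hY wu u (θ + ω)).1 ((D G).P a) ((D G).ft a) ((D G).g a) ((D G).e a)
          (((∑ i ∈ (G : Finset ι), m i) / (D G).e a) • (θ + ω) + (M / (D G).e a) • ω)
          ((D G).epos a) (hEE (hstr (hsub G G.2) m h') ((D G).edvd a) he) h5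
      rw [h4, EE_congr χ Y u _ _ _ hw h5 (hw ▸ h5)]
      ring
    · rw [dif_neg he, mul_zero]
      split_ifs
      · rw [mul_zero, zero_mul]
      · rfl

end Pool.Agent.NDM.H78
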