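import Pool.Agent.Helper46_NDM.Spl

/-!
# Module SWP: exchange of the order of the fibrations
-/

set_option autoImplicit false
set_option linter.unusedVariables false
set_option linter.unusedSectionVars false

namespace Pool.Agent.NDM.H78

open PowerSeries Finset Pool.Agent.Helper6_Mono Pool.Agent.Helper32_OMP
open Pool.Agent.NDM.H46 (Dhi Dhi_finite Dhi_ncard pp_congr)

section

variable {k : Type} [Field k] {σ ι : Type} [Fintype σ] {β : Type} {wβ : β → QZ}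

/-- the two forms of the equation -/
theorem swp_iff {S : Type} [CommRing S] {M₁ : ℕ} {q : S⟦X⟧} {u a : S} :
    (((∀ j < M₁, coeff j q = 0) ∧ IsUnit (coeff M₁ q)) ∧ u * coeff M₁ q * a = 1) ↔
      IsT M₁ (C (u * a) * q) := by
  constructor
  · rintro ⟨⟨h1, h2⟩, h3⟩ j hj
    rw [coeff_C_mul]
    split_ifs with h
    · rw [h, ← h3]
      ring
    · rw [h1 j (lt_of_le_of_ne hj h), mul_zero]
  · intro h
    have h0 : u * a * coeff M₁ q = 1 := by
      have := h M₁ le_rfl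
      rwa [coeff_C_mul, if_pos rfl] at this
    refine ⟨⟨fun j hj => ?_, ?_⟩, ?_⟩
    · have h1 := h j hj.le
      rw [coeff_C_mul, if_neg hj.ne] at h1
      calc coeff j q = (u * a * coeff M₁ q) * coeff j q := by rw [h0, one_mul]
        _ = (u * a * coeff j q) * coeff M₁ q := by ring
        _ = 0 := by rw [h1, zero_mul]
    · exact IsUnit.of_mul_eq_one (u * a) (by rw [mul_comm]; exact h0)
    · rw [← h0]
      ring

theorem swp_iso (L : ι → σ → k) (m : ι → ℕ) (A : Finset ι) (Y : Over k QZ β wβ) {wu : QZ}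
    (u : NF Y.F wu) (M M₁ : ℕ) (ω θ : QZ) (hM : M₁ ≤ M) (P : GF k QZ) (g : NF P 0) (e : ℕ)
    (w : QZ) (h : (wu + ((∑ i ∈ A, m i) • θ + M₁ • ω)) + e • w = 0)
    (h' : (wu + e • w) + (∑ i ∈ A, m i) • θ + M₁ • ω = 0) :
    OIso (EE (YO L m A M M₁ ω θ Y) (uO L m A M M₁ ω θ Y u) P g e w h)
      ((JJ L m A M₁ ω θ ((Y.times P).times (GF.line k w)) (ugx Y u P g e w) h').times
        (serGF k (Dhi σ M₁ M) (fun _ => θ) ω)) := by
  have key : ∀ {S : Type} [CommRing S] [Algebra k S] (y : Y.F.obj S) (p : P.obj S) (x : S)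
      (v v' : σ → S⟦X⟧), (∀ l, ∀ j ≤ M₁, coeff j (v l) = coeff j (v' l)) →
      ((((∀ j < M₁, coeff j (pp L m A v) = 0) ∧ IsUnit (coeff M₁ (pp L m A v))) ∧
        u.fn y * coeff M₁ (pp L m A v) * g.fn p * x ^ e = 1) ↔
        IsT M₁ (C (u.fn y * g.fn p * x ^ e) * pp L m A v')) := by
    intro S _ _ y p x v v' hv
    have hc := pp_congr L m A (N := M₁) hv
    have e1 := swp_iff (S := S) (M₁ := M₁) (q := pp L m A v) (u := u.fn y) (a := g.fn p * x ^ e)
    have e2 : IsT M₁ (C (u.fn y * g.fn p * x ^ e) * pp L m A v') ↔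
        IsT M₁ (C (u.fn y * (g.fn p * x ^ e)) * pp L m A v) := by
      have e3 : ∀ j ≤ M₁, coeff j (C (u.fn y * g.fn p * x ^ e) * pp L m A v')
          = coeff j (C (u.fn y * (g.fn p * x ^ e)) * pp L m A v) := by
        intro j hj
        rw [coeff_C_mul, coeff_C_mul, hc j hj]
        ring
      constructor
      · intro h j hj
        rw [← e3 j hj]
        exact h j hj
      · intro h j hj
        rw [e3 j hj]
        exact h j hj
    rw [e2, ← e1, mul_assoc (u.fn y * _)]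
  refine OIso.mk' (fun S _ _ x => (⟨(((x.1.1.1.1.1, x.1.1.2), x.1.2 ()),
      ⟨fun l => lowS M₁ (x.1.1.1.1.2.1 l), ?_⟩), ?_⟩,
        ⟨fun l => x.1.1.1.1.2.1 l - lowS M₁ (x.1.1.1.1.2.1 l), ?_⟩))
    (fun S _ _ z => ⟨((⟨(z.1.1.1.1.1, ⟨fun l => z.1.1.2.1 l + z.2.1 l, ?_⟩), ?_⟩,
      z.1.1.1.1.2), fun _ => z.1.1.1.2), ?_⟩) ?_ ?_ ?_ ?_
  · intro l j hj
    rw [coeff_lowS]
    split_ifs with h1
    · refine x.1.1.1.1.2.2 l j fun h2 => hj ⟨h2.1, h1⟩
    · rfl
  · refine (key x.1.1.1.1.1 x.1.1.2 (x.1.2 ()) x.1.1.1.1.2.1 _ (fun l j hj => ?_)).1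
      ⟨x.1.1.1.2, ?_⟩
    · rw [coeff_lowS, if_pos hj]
    · have := x.2
      simpa using this
  · intro l j hj
    rw [map_sub, coeff_lowS]
    split_ifs with h1
    · rw [sub_self]
    · rw [sub_zero]
      exact x.1.1.1.1.2.2 l j fun h2 => hj ⟨by omega, h2.2⟩
  · intro l j hj
    rw [map_add, z.1.1.2.2 l j fun h2 => hj ⟨h2.1, h2.2.trans hM⟩,
      z.2.2 l j fun h2 => hj ⟨by have := h2.1; omega, h2.2⟩, add_zero]
  · refine ((key z.1.1.1.1.1 z.1.1.1.1.2 z.1.1.1.2 (fun l => z.1.1.2.1 l + z.2.1 l) z.1.1.2.1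
      (fun l j hj => ?_)).2 z.1.2).1
    rw [map_add, z.2.2 l j fun h2 => by have := h2.1; omega, add_zero]
  · have h2 := ((key z.1.1.1.1.1 z.1.1.1.1.2 z.1.1.1.2 (fun l => z.1.1.2.1 l + z.2.1 l) z.1.1.2.1
      (fun l j hj => by
        rw [map_add, z.2.2 l j fun h2 => by have := h2.1; omega, add_zero])).2 z.1.2).2
    simpa using h2
  · intro S _ _ x
    refine Subtype.ext (Prod.ext (Prod.ext (Subtype.ext (Prod.ext rfl (Subtype.ext
      (funext fun l => ?_)))) rfl) rfl)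
    show lowS M₁ (x.1.1.1.1.2.1 l) + (x.1.1.1.1.2.1 l - lowS M₁ (x.1.1.1.1.2.1 l))
      = x.1.1.1.1.2.1 l
    ring
  · intro S _ _ z
    have h1 : ∀ l, lowS M₁ (z.1.1.2.1 l + z.2.1 l) = z.1.1.2.1 l := by
      intro l
      ext j
      rw [coeff_lowS, map_add]
      split_ifs with h1
      · rw [z.2.2 l j fun h2 => by have := h2.1; omega, add_zero]
      · rw [z.1.1.2.2 l j fun h2 => h1 h2.2]
    refine Prod.ext (Subtype.ext (Prod.ext rfl (Subtype.ext (funext fun l => h1 l))))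
      (Subtype.ext (funext fun l => ?_))
    show z.1.1.2.1 l + z.2.1 l - lowS M₁ (z.1.1.2.1 l + z.2.1 l) = z.2.1 l
    rw [h1 l]
    ring
  · intro S S' _ _ _ _ φ c x
    have h1 : ∀ l, lowS M₁ (C (chr c θ) * twS ω φ c (x.1.1.1.1.2.1 l))
        = C (chr c θ) * twS ω φ c (lowS M₁ (x.1.1.1.1.2.1 l)) := by
      intro l
      rw [lowS_C_mul, twS_lowS]
    refine Prod.ext (Subtype.ext (Prod.ext rfl (Subtype.ext (funext fun l => h1 l))))
      (Subtype.ext (funext fun l => ?_))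
    show C (chr c θ) * twS ω φ c (x.1.1.1.1.2.1 l)
        - lowS M₁ (C (chr c θ) * twS ω φ c (x.1.1.1.1.2.1 l))
      = C (chr c θ) * twS ω φ c (x.1.1.1.1.2.1 l - lowS M₁ (x.1.1.1.1.2.1 l))
    rw [h1 l, map_sub, mul_sub]
  · intro S _ _ x b
    rfl

end

/-- SWP. -/
theorem swp : SwpStmt := by
  intro k _ σ ι _ β wβ R _ L0 χ L m A Y hY wu u M M₁ ω θ hM P hP g e w he h h'
  rw [χ.iso (FT_EE (FT_YO L m A M M₁ ω θ hY) _ hP g e w h)
      (swp_iso L m A Y u M M₁ ω θ hM P g e w h h'),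
    times_ser χ (FT_JJ L m A M₁ ω θ ((hY.prod hP).prod (FT.line w)) (ugx Y u P g e w) h')
      (Dhi_finite _ _), Dhi_ncard]

end Pool.Agent.NDM.H78
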