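import Pool.Agent.Helper32_ND.All
import Pool.Agent.Helper78_NDM.Dat
import Pool.Agent.Helper78_NDM.Swp
import Pool.Agent.Helper32_NDM.Gms
import Pool.Agent.Helper32_NDM.Rts
import Pool.Agent.Helper32_NDM.Sts
import Pool.Agent.Helper32_NDM.Top
import Pool.Agent.Helper46_NDM.Spl
import Pool.Agent.Helper51_NDM.Mai
import Pool.Agent.Helper51_NDM.Zem
import Pool.Agent.Helper52_NDM.Bch
import Pool.Agent.Helper52_NDM.Gpt
import Pool.Agent.Helper59_NDM.Scl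
import Pool.Agent.Helper63_NDM.Emp
import Pool.Agent.Helper63_NDM.Ker
import Pool.Agent.Helper78_NDM.Dn1
import Pool.Agent.Helper79_NDM.Bas
import Pool.Agent.Helper79_NDM.Dn2
import Pool.Agent.Helper81_NDM.Prd
import Pool.Agent.Helper88_NDM.Dbl
import Pool.Agent.Helper88_NDM.Pim
import Pool.Agent.Helper97_NDM.Tr2
import Pool.Agent.Helper97_NDM.Zra
import Pool.Agent.Helper37_OMP.Tor
import Pool.Agent.Helper48_OMP.Nsatz
import Pool.Agent.Helper64_OMP.Genf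
import Pool.Agent.Helper93_OMP.Jy0

/-!
# Assembly of the modules
-/

set_option autoImplicit false

namespace Pool.Agent.NDM

open Pool.Agent.Helper32_OMP Pool.Agent.Helper6_Mono

theorem dn2Stmt : Dn2Stmt :=
  H79.dn2 (H78.dn1 H59.scl H32.sts H63.emp H63.ker H79.bas (H32.gms H37.tor)) H64.genf

theorem prdStmt : PrdStmt :=
  H81.prd (H88.dbl H88.pim) H46.spl H78.swp (H97.tr2 H37.tor)

theorem datStmt : DatStmt := H78.dat dn2Stmt prdStmt

theorem zraStmt : ZraStmt := H97.zra datStmt (H32.top H93.jy0) (H51.zem H48.nul)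

theorem rtsStmt : RtsStmt := H32.rts H52.gpt H52.bch ND.ndStmt

/-- the equivariant motivic monodromy conjecture for hyperplane arrangements -/
theorem mainStmt : MainStmt := H51.mai zraStmt rtsStmt

/-- the same with explicit slopes -/
theorem mainSlopes (k : Type) [Field k] [Algebra k ℂ] (σ ι : Type) [Fintype σ] [Fintype ι]
    [Nonempty ι] (a : ι → MvPolynomial σ k) (ha : ∀ i, (a i).totalDegree = 1) (m : ι → ℕ)
    (hm : ∀ i, 0 < m i) (c : k) (hc : c ≠ 0) :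
    ∃ S : Finset (ℤ × ℕ),
      (∀ p ∈ S, p.1 < 0 ∧ 0 < p.2 ∧ ∃ (z : σ → ℂ) (W : Finset ι),
        (∀ i, MvPolynomial.aeval z (a i) = 0 ↔ i ∈ W) ∧ W.Nonempty ∧
        ConnS (fun i => lpk (a i)) W ∧
        (p.1 : ℚ) / (p.2 : ℚ) =
          -(rk (fun i => lpk (a i)) W : ℚ) / ((∑ i ∈ W, m i : ℕ) : ℚ)) ∧
      Zf (MvPolynomial.C c * ∏ i, a i ^ m i) ∈
        zetaRing (MvPolynomial.C c * ∏ i, a i ^ m i) S := by
  classical
  obtain ⟨P, hP, hZ'⟩ := zeta_rat (MvPolynomial.C c * ∏ i, a i ^ m i)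
    {q | ∃ (z : σ → ℂ) (F W : Finset ι),
        (∀ i, MvPolynomial.aeval z (a i) = 0 ↔ i ∈ F) ∧ W.Nonempty ∧
        ClIn (fun i => lpk (a i)) F W ∧ ConnS (fun i => lpk (a i)) W ∧
        q = (rk (fun i => lpk (a i)) W : ℚ) / ((∑ i ∈ W, m i : ℕ) : ℚ)}
    (by
      rintro x ⟨z, F, W, h1, h2, h3, h4, rfl⟩
      have h5 : 0 < rk (fun i => lpk (a i)) W := H51.rk_pos _ W h2 fun i => H51.lpk_ne _ (ha i)
      have h6 : 0 < ∑ i ∈ W, m i := Finset.sum_pos (fun i _ => hm i) h2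
      have h5' : (0 : ℚ) < (rk (fun i => lpk (a i)) W : ℚ) := by exact_mod_cast h5
      have h6' : (0 : ℚ) < ((∑ i ∈ W, m i : ℕ) : ℚ) := by exact_mod_cast h6
      exact div_pos h5' h6')
    (fun χ => by
      obtain ⟨s, hs0, hs1, hs2⟩ := zraStmt k σ ι (MM (MvPolynomial.C c * ∏ i, a i ^ m i))
        (LL (MvPolynomial.C c * ∏ i, a i ^ m i)) χ a ha m hm c hc
      exact ⟨s, hs0, hs1, hs2⟩)
  refine ⟨P, fun p hp => ?_, hZ'⟩
  obtain ⟨h1, h2, h3⟩ := hP p hp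
  refine ⟨h1, h2, ?_⟩
  obtain ⟨z, F, W, h4, h5, h6, h7, h8⟩ := h3
  obtain ⟨z', hz'⟩ := H52.gpt k σ ι a ha z F W h4 h6
  refine ⟨z', W, hz', h5, h7, ?_⟩
  rw [neg_div, ← h8, neg_neg]

end Pool.Agent.NDM
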