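import Pool.Agent.Helper32_OMP.Stmts

/-!
# The zeta function of a hyperplane arrangement: definitions

For a finite set `F` of linear forms `L i` with exponents `m i` and a functor `Y` over the base
with a homogeneous function `u` we consider the jets `v` with `u(y) ∏_{i ∈ F} L_i(v)^{m_i} = t^M`.
-/

set_option autoImplicit false
set_option linter.unusedVariables false
set_option linter.unusedSectionVars false

namespace Pool.Agent.NDM

open PowerSeries Finset Pool.Agent.Helper6_Mono Pool.Agent.Helper32_OMP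

/-! ### Linear forms -/

section lf

variable {k : Type} [Field k] {σ : Type} [Fintype σ]

/-- the value of the linear form with the coefficient vector `a` -/
def lf {A : Type*} [AddCommMonoid A] [Module k A] (a : σ → k) (x : σ → A) : A := ∑ l, a l • x l

/-- the span of the forms with index in `F` -/
noncomputable def spn {ι : Type} (L : ι → σ → k) (F : Finset ι) : Submodule k (σ → k) :=
  Submodule.span k (L '' (F : Set ι))

/-- the rank of the set `F` of forms -/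
noncomputable def rk {ι : Type} (L : ι → σ → k) (F : Finset ι) : ℕ := Module.finrank k (spn L F)

/-- `G` is a subset of `F` which contains every form of `F` in the span of the forms of `G` -/
def ClIn {ι : Type} (L : ι → σ → k) (F G : Finset ι) : Prop :=
  G ⊆ F ∧ ∀ i ∈ F, L i ∈ spn L G → i ∈ G

/-- the set `F` of forms is connected: it has no partition into two nonempty parts with
independent spans -/
def ConnS {ι : Type} (L : ι → σ → k) (F : Finset ι) : Prop :=
  ∀ A B : Finset ι, A.Nonempty → B.Nonempty → Disjoint A B → (∀ i, i ∈ F ↔ i ∈ A ∨ i ∈ B) →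
    ¬ Disjoint (spn L A) (spn L B)

end lf

section defs

variable {k : Type} [Field k] {σ ι : Type} [Fintype σ] {β : Type} {wβ : β → QZ}

theorem lf_tw {S S' : Type} [CommRing S] [Algebra k S] [CommRing S'] [Algebra k S'] (a : σ → k)
    (θ ω : QZ) (φ : S →ₐ[k] S') (c : Chr QZ S') (γ : σ → S⟦X⟧) :
    lf a (fun l => C (chr c θ) * twS ω φ c (γ l)) = C (chr c θ) * twS ω φ c (lf a γ) := by
  unfold lf
  rw [map_sum, Finset.mul_sum]
  refine Finset.sum_congr rfl fun l _ => ?_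
  rw [map_smul, mul_smul_comm]

theorem lf_tw0 {S S' : Type} [CommRing S] [Algebra k S] [CommRing S'] [Algebra k S'] (a : σ → k)
    (θ : QZ) (φ : S →ₐ[k] S') (c : Chr QZ S') (x : σ → S) :
    lf a (fun l => chr c θ * φ (x l)) = chr c θ * φ (lf a x) := by
  unfold lf
  rw [map_sum, Finset.mul_sum]
  refine Finset.sum_congr rfl fun l _ => ?_
  rw [map_smul, mul_smul_comm]

theorem coeff_lf {S : Type} [CommRing S] [Algebra k S] (a : σ → k) (γ : σ → S⟦X⟧) (j : ℕ) :
    coeff j (lf a γ) = lf a (fun l => coeff j (γ l)) := by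
  unfold lf
  rw [map_sum]
  refine Finset.sum_congr rfl fun l _ => ?_
  rw [Algebra.smul_def, PowerSeries.algebraMap_apply, coeff_C_mul, ← Algebra.smul_def]

/-- the series `∏_{i ∈ F} L_i(v)^{m_i}` -/
noncomputable abbrev pp {S : Type} [CommRing S] [Algebra k S] (L : ι → σ → k) (m : ι → ℕ)
    (F : Finset ι) (γ : σ → S⟦X⟧) : S⟦X⟧ := ∏ i ∈ F, lf (L i) γ ^ m i

theorem pp_tw {S S' : Type} [CommRing S] [Algebra k S] [CommRing S'] [Algebra k S']
    (L : ι → σ → k) (m : ι → ℕ) (F : Finset ι) (θ ω : QZ) (φ : S →ₐ[k] S') (c : Chr QZ S')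
    (γ : σ → S⟦X⟧) :
    pp L m F (fun l => C (chr c θ) * twS ω φ c (γ l))
      = C (chr c ((∑ i ∈ F, m i) • θ)) * twS ω φ c (pp L m F γ) := by
  unfold pp
  rw [map_prod, chr_nsmul, map_pow C, ← Finset.prod_pow_eq_pow_sum]
  have h1 : ∀ i ∈ F, lf (L i) (fun l => C (chr c θ) * twS ω φ c (γ l)) ^ m i
      = C (chr c θ) ^ m i * twS ω φ c (lf (L i) γ ^ m i) := by
    intro i _
    rw [lf_tw, mul_pow, map_pow]
  rw [Finset.prod_congr rfl h1, Finset.prod_mul_distrib]

/-- the first coefficients of the series `q` are those of `t^M` -/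
abbrev IsT {S : Type} [CommRing S] (M : ℕ) (q : S⟦X⟧) : Prop :=
  ∀ j ≤ M, coeff j q = if j = M then 1 else 0

theorem IsT_tw {S S' : Type} [CommRing S] [Algebra k S] [CommRing S'] [Algebra k S'] (M : ℕ)
    {w ω : QZ} (h : w + M • ω = 0) (φ : S →ₐ[k] S') (c : Chr QZ S') (q : S⟦X⟧) (hq : IsT M q) :
    IsT M (C (chr c w) * twS ω φ c q) := by
  intro j hj
  rw [coeff_C_mul, coeff_twS, hq j hj, ← mul_assoc, ← chr_add]
  split_ifs with h1
  · rw [h1, h, chr_zero, map_one, mul_one]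
  · rw [map_zero, mul_zero]

theorem JEq_tw {S S' : Type} [CommRing S] [Algebra k S] [CommRing S'] [Algebra k S']
    (L : ι → σ → k) (m : ι → ℕ) (F : Finset ι) (M : ℕ) {wu θ ω : QZ}
    (h : wu + (∑ i ∈ F, m i) • θ + M • ω = 0) (φ : S →ₐ[k] S') (c : Chr QZ S')
    (u : S) (γ : σ → S⟦X⟧) (hx : IsT M (C u * pp L m F γ)) :
    IsT M (C (chr c wu * φ u) * pp L m F (fun l => C (chr c θ) * twS ω φ c (γ l))) := by
  have h1 := IsT_tw M h φ c _ hx
  have h2 : C (chr c wu * φ u) * pp L m F (fun l => C (chr c θ) * twS ω φ c (γ l))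
      = C (chr c (wu + (∑ i ∈ F, m i) • θ)) * twS ω φ c (C u * pp L m F γ) := by
    rw [pp_tw, map_mul (twS ω φ c), twS_C, chr_add, map_mul C, map_mul C]
    ring
  rw [h2]
  exact h1

/-! ### Jets -/

/-- the indices `0, ..., M` -/
def Dz (σ : Type) (M : ℕ) : Set (σ × ℕ) := {p | p.2 ≤ M}

theorem Dz_finite (M : ℕ) : (Dz σ M).Finite := by
  refine Set.Finite.subset (Set.Finite.prod (Set.finite_univ (α := σ)) (Set.finite_Iic M)) ?_
  rintro ⟨l, b⟩ h
  exact ⟨Set.mem_univ _, h⟩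

/-- pairs of a point `y` of `Y` and a jet `v` with the coefficients in `D` such that
`u(y) ∏_{i ∈ F} L_i(v)^{m_i} = t^M` modulo `t^(M+1)` -/
@[reducible] noncomputable def JD (D : Set (σ × ℕ)) (L : ι → σ → k) (m : ι → ℕ) (F : Finset ι)
    (M : ℕ) (ω θ : QZ) (Y : Over k QZ β wβ) {wu : QZ} (u : NF Y.F wu)
    (h : wu + (∑ i ∈ F, m i) • θ + M • ω = 0) : Over k QZ β wβ :=
  (Y.times (serGF k D (fun _ => θ) ω)).sub
    (fun S _ _ x => IsT M (C (u.fn x.1) * pp L m F x.2.1))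
    (fun φ c x hx => by
      rw [u.fn_tw]
      exact JEq_tw L m F M h φ c _ _ hx)

/-- jets with `v(0) = 0` -/
@[reducible] noncomputable def JJ (L : ι → σ → k) (m : ι → ℕ) (F : Finset ι)
    (M : ℕ) (ω θ : QZ) (Y : Over k QZ β wβ) {wu : QZ} (u : NF Y.F wu)
    (h : wu + (∑ i ∈ F, m i) • θ + M • ω = 0) : Over k QZ β wβ := JD (Dj σ M) L m F M ω θ Y u h

/-- all jets -/
@[reducible] noncomputable def JZ (L : ι → σ → k) (m : ι → ℕ) (F : Finset ι)
    (M : ℕ) (ω θ : QZ) (Y : Over k QZ β wβ) {wu : QZ} (u : NF Y.F wu)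
    (h : wu + (∑ i ∈ F, m i) • θ + M • ω = 0) : Over k QZ β wβ := JD (Dz σ M) L m F M ω θ Y u h

/-- triples of a point `y` of `Y` and two jets `v`, `v'` with
`u(y) ∏_{i ∈ A} L_i(v)^{m_i} ∏_{i ∈ B} L_i(v')^{m_i} = t^M` modulo `t^(M+1)` -/
@[reducible] noncomputable def J2 (L : ι → σ → k) (m : ι → ℕ) (A B : Finset ι)
    (M : ℕ) (ω θ : QZ) (Y : Over k QZ β wβ) {wu : QZ} (u : NF Y.F wu)
    (h : wu + (∑ i ∈ A, m i + ∑ i ∈ B, m i) • θ + M • ω = 0) : Over k QZ β wβ :=
  ((Y.times (serGF k (Dj σ M) (fun _ => θ) ω)).times (serGF k (Dj σ M) (fun _ => θ) ω)).sub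
    (fun S _ _ x => IsT M (C (u.fn x.1.1) * (pp L m A x.1.2.1 * pp L m B x.2.1)))
    (fun {S S'} _ _ _ _ φ c x hx => by
      have h1 := IsT_tw M h φ c _ hx
      have h2 : C (chr c wu * φ (u.fn x.1.1)) *
          (pp L m A (fun l => C (chr c θ) * twS ω φ c (x.1.2.1 l)) *
            pp L m B (fun l => C (chr c θ) * twS ω φ c (x.2.1 l)))
          = C (chr c (wu + (∑ i ∈ A, m i + ∑ i ∈ B, m i) • θ)) * twS ω φ c
            (C (u.fn x.1.1) * (pp L m A x.1.2.1 * pp L m B x.2.1)) := by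
        rw [pp_tw, pp_tw, map_mul (twS ω φ c), map_mul (twS ω φ c), twS_C, chr_add, add_smul,
          chr_add, map_mul C, map_mul C, map_mul C]
        ring
      show IsT M (C (u.fn (Y.F.tw φ c x.1.1)) * _)
      rw [u.fn_tw]
      have h3 := h2 ▸ h1
      exact h3)

/-- pairs of a point of `Y` and a jet `v` such that `∏_{i ∈ A} L_i(v)^{m_i}` has order `M₁` and an
invertible leading coefficient -/
@[reducible] noncomputable def YO (L : ι → σ → k) (m : ι → ℕ) (A : Finset ι)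
    (M M₁ : ℕ) (ω θ : QZ) (Y : Over k QZ β wβ) : Over k QZ β wβ :=
  (Y.times (serGF k (Dj σ M) (fun _ => θ) ω)).sub
    (fun S _ _ x => (∀ j < M₁, coeff j (pp L m A x.2.1) = 0) ∧
      IsUnit (coeff M₁ (pp L m A x.2.1)))
    (fun {S S'} _ _ _ _ φ c x hx => by
      have h1 : ∀ j, coeff j (pp L m A (fun l => C (chr c θ) * twS ω φ c (x.2.1 l)))
          = chr c ((∑ i ∈ A, m i) • θ + j • ω) * φ (coeff j (pp L m A x.2.1)) := by
        intro j
        rw [pp_tw, coeff_C_mul, coeff_twS, ← mul_assoc, ← chr_add]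
      refine ⟨fun j hj => ?_, ?_⟩
      · show coeff j (pp L m A (fun l => C (chr c θ) * twS ω φ c (x.2.1 l))) = 0
        rw [h1, hx.1 j hj, map_zero, mul_zero]
      · show IsUnit (coeff M₁ (pp L m A (fun l => C (chr c θ) * twS ω φ c (x.2.1 l))))
        rw [h1]
        exact (chr_isUnit c _).mul (hx.2.map φ))

/-- the product of `u` and of the leading coefficient -/
@[reducible] noncomputable def uO (L : ι → σ → k) (m : ι → ℕ) (A : Finset ι)
    (M M₁ : ℕ) (ω θ : QZ) (Y : Over k QZ β wβ) {wu : QZ} (u : NF Y.F wu) :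
    NF (YO L m A M M₁ ω θ Y).F (wu + ((∑ i ∈ A, m i) • θ + M₁ • ω)) :=
  ⟨fun x => u.fn x.1.1 * coeff M₁ (pp L m A x.1.2.1), fun {S S'} _ _ _ _ φ c x => by
    show u.fn (Y.F.tw φ c x.1.1) *
      coeff M₁ (pp L m A (fun l => C (chr c θ) * twS ω φ c (x.1.2.1 l))) = _
    rw [u.fn_tw, pp_tw, coeff_C_mul, coeff_twS, map_mul, chr_add, chr_add]
    ring⟩

/-! ### Strata -/

/-- the points `x` of weight `θ` at which the forms of index in `G` vanish and the forms of index
in `F`, not in `G`, are invertible -/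
@[reducible] noncomputable def SS (L : ι → σ → k) (F G : Finset ι) (θ : QZ) : GF k QZ :=
  (GF.pi k (fun _ : σ => θ)).sub
    (fun S _ _ x => ∀ i ∈ F, (i ∈ G → lf (L i) x = 0) ∧ (i ∉ G → IsUnit (lf (L i) x)))
    (fun φ c x hx i hi => by
      rw [lf_tw0]
      refine ⟨fun h => ?_, fun h => (chr_isUnit c _).mul (((hx i hi).2 h).map φ)⟩
      rw [(hx i hi).1 h, map_zero, mul_zero])

/-- the points of the stratum at which the form `i₀` takes the value `1` -/
@[reducible] noncomputable def PS (L : ι → σ → k) (F G : Finset ι) (i₀ : ι) : GF k QZ :=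
  (SS L F G 0).sub (fun S _ _ x => lf (L i₀) x.1 = 1) (fun φ c x hx => by
    show lf (L i₀) (fun l => chr c 0 * φ (x.1 l)) = 1
    rw [lf_tw0, hx, map_one, chr_zero, one_mul])

variable [DecidableEq ι]

/-- the function `∏_{i ∈ F \ G} L_i(x)^{m_i}` on the stratum -/
@[reducible] noncomputable def gS (L : ι → σ → k) (m : ι → ℕ) (F G : Finset ι) (θ : QZ) :
    NF (SS L F G θ) ((∑ i ∈ F \ G, m i) • θ) :=
  ⟨fun x => ∏ i ∈ F \ G, lf (L i) x.1 ^ m i, fun {S S'} _ _ _ _ φ c x => by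
    show ∏ i ∈ F \ G, lf (L i) (fun l => chr c θ * φ (x.1 l)) ^ m i = _
    rw [chr_nsmul, map_prod, ← Finset.prod_pow_eq_pow_sum, ← Finset.prod_mul_distrib]
    refine Finset.prod_congr rfl fun i _ => ?_
    rw [lf_tw0, mul_pow, map_pow]⟩

/-- the same function on the normalized points -/
@[reducible] noncomputable def gP (L : ι → σ → k) (m : ι → ℕ) (F G : Finset ι) (i₀ : ι) :
    NF (PS L F G i₀) 0 :=
  ⟨fun x => ∏ i ∈ F \ G, lf (L i) x.1.1 ^ m i, fun {S S'} _ _ _ _ φ c x => by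
    show ∏ i ∈ F \ G, lf (L i) (fun l => chr c 0 * φ (x.1.1 l)) ^ m i
      = chr c 0 * φ (∏ i ∈ F \ G, lf (L i) x.1.1 ^ m i)
    have h0 : ∀ i, lf (L i) (fun l => chr c 0 * φ (x.1.1 l)) = φ (lf (L i) x.1.1) := by
      intro i
      rw [lf_tw0, chr_zero, one_mul]
    rw [chr_zero, one_mul, map_prod]
    refine Finset.prod_congr rfl fun i _ => ?_
    rw [← chr_zero c, h0, map_pow]⟩

/-- the function `u(y) g(x)` on `Y × P` -/
@[reducible] noncomputable def ug {wu wg : QZ} (Y : Over k QZ β wβ) (u : NF Y.F wu) {P : GF k QZ}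
    (g : NF P wg) : NF (Y.times P).F (wu + wg) := (u.fst P).mul (g.snd Y.F)

/-- the function `g(p) g'(q)` on `P × Q` -/
@[reducible] noncomputable def gg {P Q : GF k QZ} (g : NF P 0) (g' : NF Q 0) : NF (P.prod Q) 0 :=
  ((g.fst Q).mul (g'.snd P)).cast (add_zero _)

theorem hstr {F G : Finset ι} (hG : G ⊆ F) (m : ι → ℕ) {wu θ ω : QZ} {M : ℕ}
    (h : wu + (∑ i ∈ F, m i) • θ + M • ω = 0) :
    (wu + (∑ i ∈ F \ G, m i) • θ) + (∑ i ∈ G, m i) • θ + M • ω = 0 := by
  rw [← h, add_assoc wu, ← add_smul, Finset.sum_sdiff hG]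

/-! ### Normal forms -/

/-- the points `(y, p, x)` with `u(y) g(p) x ^ e = 1` -/
@[reducible] noncomputable def EE (Y : Over k QZ β wβ) {wu : QZ} (u : NF Y.F wu) (P : GF k QZ)
    (g : NF P 0) (e : ℕ) (w : QZ) (h : wu + e • w = 0) : Over k QZ β wβ :=
  TT (Y.times P) (ug Y u g) (fun _ : Unit => e) (fun _ => w) (by simpa using h)

/-- the locus where the function is `1` -/
@[reducible] noncomputable def ONE (Y : Over k QZ β wβ) {wu : QZ} (u : NF Y.F wu) (h : wu = 0) :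
    Over k QZ β wβ :=
  Y.sub (fun S _ _ x => u.fn x = 1) (fun φ c x hx => by
    rw [u.fn_tw, hx, map_one, mul_one, h, chr_zero])

/-- the function `u(y) g(p) x ^ e` on `Y × P × 𝔸¹` -/
@[reducible] noncomputable def ugx (Y : Over k QZ β wβ) {wu : QZ} (u : NF Y.F wu) (P : GF k QZ)
    (g : NF P 0) (e : ℕ) (w : QZ) : NF ((Y.times P).times (GF.line k w)).F (wu + e • w) :=
  ⟨fun x => u.fn x.1.1 * g.fn x.1.2 * x.2 ^ e, fun {S S'} _ _ _ _ φ c x => by
    show u.fn (Y.F.tw φ c x.1.1) * g.fn (P.tw φ c x.1.2) * (chr c w * φ x.2) ^ e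
      = chr c (wu + e • w) * φ (u.fn x.1.1 * g.fn x.1.2 * x.2 ^ e)
    rw [u.fn_tw, g.fn_tw, chr_zero, one_mul, mul_pow, chr_add, chr_nsmul, map_mul, map_mul, map_pow]
    ring⟩

theorem hEE {wu θ ω : QZ} {mF M e : ℕ} (h : wu + mF • θ + M • ω = 0) (he : e ∣ mF)
    (hM : e ∣ M) : wu + e • ((mF / e) • θ + (M / e) • ω) = 0 := by
  rw [smul_add, smul_smul, smul_smul, Nat.mul_div_cancel' he, Nat.mul_div_cancel' hM, ← add_assoc, h]

variable (k) in
/-- the shape of a formula for the classes of the jets -/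
structure Dat {R : Type 1} [CommRing R] (L0 : Rˣ) (mF : ℕ) (S : Set ℚ) where
  Λ : Type
  fin : Fintype Λ
  P : Λ → GF k QZ
  ft : ∀ a, FT (P a)
  g : ∀ a, NF (P a) 0
  e : Λ → ℕ
  epos : ∀ a, 0 < e a
  edvd : ∀ a, e a ∣ mF
  c : Λ → ℕ → R
  rp : ∀ a, RP L0 (steps S) (c a)

/-- the class of the formula -/
noncomputable def Dat.val {R : Type 1} [CommRing R] {L0 : Rˣ} {mF : ℕ} {S : Set ℚ}
    (D : Dat k L0 mF S) (χ : SInv k wβ L0) (M : ℕ) (ω θ : QZ) (Y : Over k QZ β wβ) {wu : QZ}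
    (u : NF Y.F wu) (h : wu + mF • θ + M • ω = 0) : R :=
  letI := D.fin
  ∑ a, if he : D.e a ∣ M then D.c a M * χ.χ (EE Y u (D.P a) (D.g a) (D.e a)
    ((mF / D.e a) • θ + (M / D.e a) • ω) (hEE h (D.edvd a) he)) else 0

/-- the normalized classes of the jets for `F` are given by a formula with slopes in `S` -/
def HasDat {R : Type 1} [CommRing R] (L0 : Rˣ) (L : ι → σ → k) (m : ι → ℕ) (F : Finset ι)
    (S : Set ℚ) : Prop :=
  ∃ D : Dat k L0 (∑ i ∈ F, m i) S, ∀ (β : Type) (wβ : β → QZ) (χ : SInv k wβ L0)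
    (Y : Over k QZ β wβ), FT Y.F → ∀ (wu : QZ) (u : NF Y.F wu) (M : ℕ) (ω θ : QZ)
    (h : wu + (∑ i ∈ F, m i) • θ + M • ω = 0),
    Li L0 ^ (Fintype.card σ * M) * χ.χ (JJ L m F M ω θ Y u h) = D.val χ M ω θ Y u h

end defs

end Pool.Agent.NDM
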