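import Pool.Agent.Helper78_NDM.Defs

/-!
# The zeta function of a hyperplane arrangement: finiteness
-/

set_option autoImplicit false
set_option linter.unusedVariables false
set_option linter.unusedSectionVars false

namespace Pool.Agent.NDM

open PowerSeries Finset Pool.Agent.Helper6_Mono Pool.Agent.Helper32_OMP

section

variable {k : Type} [Field k] {σ ι : Type} [Fintype σ] {β : Type} {wβ : β → QZ}

theorem FT_sub_closed {W : Type} [AddCommGroup W] {F : GF k W} (hF : FT F)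
    {P : (S : Type) → [CommRing S] → [Algebra k S] → F.obj S → Prop}
    (hP : ∀ {S S' : Type} [CommRing S] [Algebra k S] [CommRing S'] [Algebra k S']
      (φ : S →ₐ[k] S') (c : Chr W S') (x : F.obj S), P S x → P S' (F.tw φ c x))
    {A : Type} {w : A → W} (h : ∀ a, NF F (w a))
    (hh : ∀ (S : Type) [CommRing S] [Algebra k S] (x : F.obj S), P S x ↔ ∀ a, (h a).fn x = 0) :
    FT (F.sub P hP) := FT.closed hF hP h hh

/-- the coefficients of the series of the equation -/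
noncomputable def cJ (D : Set (σ × ℕ)) (L : ι → σ → k) (m : ι → ℕ) (F : Finset ι)
    (M : ℕ) (ω θ : QZ) (Y : Over k QZ β wβ) {wu : QZ} (u : NF Y.F wu)
    (h : wu + (∑ i ∈ F, m i) • θ + M • ω = 0) (j : Fin (M + 1)) :
    NF (Y.times (serGF k D (fun _ => θ) ω)).F (wu + (∑ i ∈ F, m i) • θ + (j : ℕ) • ω) :=
  ⟨fun x => coeff (j : ℕ) (C (u.fn x.1) * pp L m F x.2.1) - if (j : ℕ) = M then 1 else 0,
    fun {S S'} _ _ _ _ φ c x => by
      show coeff (j : ℕ) (C (u.fn (Y.F.tw φ c x.1)) *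
        pp L m F (fun l => C (chr c θ) * twS ω φ c (x.2.1 l))) - _ = _
      have h2 : C (chr c wu * φ (u.fn x.1)) * pp L m F (fun l => C (chr c θ) * twS ω φ c (x.2.1 l))
          = C (chr c (wu + (∑ i ∈ F, m i) • θ)) * twS ω φ c (C (u.fn x.1) * pp L m F x.2.1) := by
        rw [pp_tw, map_mul (twS ω φ c), twS_C, chr_add, map_mul C, map_mul C]
        ring
      rw [u.fn_tw, h2, coeff_C_mul, coeff_twS, map_sub, mul_sub, ← mul_assoc, ← chr_add]
      congr 1
      split_ifs with h1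
      · rw [h1, h, chr_zero, map_one, mul_one]
      · rw [map_zero, mul_zero]⟩

theorem FT_JD {D : Set (σ × ℕ)} (hD : D.Finite) (L : ι → σ → k) (m : ι → ℕ) (F : Finset ι)
    (M : ℕ) (ω θ : QZ) {Y : Over k QZ β wβ} (hY : FT Y.F) {wu : QZ} (u : NF Y.F wu)
    (h : wu + (∑ i ∈ F, m i) • θ + M • ω = 0) : FT (JD D L m F M ω θ Y u h).F :=
  FT.closed (hY.prod (FT.ser hD _ _)) (fun φ c x hx => by
      rw [u.fn_tw]
      exact JEq_tw L m F M h φ c _ _ hx) (cJ D L m F M ω θ Y u h) fun S _ _ x => by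
    constructor
    · intro hx j
      exact sub_eq_zero.2 (hx j (Nat.lt_succ_iff.1 j.2))
    · intro hx j hj
      exact sub_eq_zero.1 (hx ⟨j, Nat.lt_succ_iff.2 hj⟩)

theorem FT_JJ (L : ι → σ → k) (m : ι → ℕ) (F : Finset ι)
    (M : ℕ) (ω θ : QZ) {Y : Over k QZ β wβ} (hY : FT Y.F) {wu : QZ} (u : NF Y.F wu)
    (h : wu + (∑ i ∈ F, m i) • θ + M • ω = 0) : FT (JJ L m F M ω θ Y u h).F :=
  FT_JD (Dj_finite M) L m F M ω θ hY u h

theorem FT_JZ (L : ι → σ → k) (m : ι → ℕ) (F : Finset ι)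
    (M : ℕ) (ω θ : QZ) {Y : Over k QZ β wβ} (hY : FT Y.F) {wu : QZ} (u : NF Y.F wu)
    (h : wu + (∑ i ∈ F, m i) • θ + M • ω = 0) : FT (JZ L m F M ω θ Y u h).F :=
  FT_JD (Dz_finite M) L m F M ω θ hY u h

/-- the coefficients of the series of the equation, two jets -/
noncomputable def cJ2 (L : ι → σ → k) (m : ι → ℕ) (A B : Finset ι)
    (M : ℕ) (ω θ : QZ) (Y : Over k QZ β wβ) {wu : QZ} (u : NF Y.F wu)
    (h : wu + (∑ i ∈ A, m i + ∑ i ∈ B, m i) • θ + M • ω = 0) (j : Fin (M + 1)) :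
    NF ((Y.times (serGF k (Dj σ M) (fun _ => θ) ω)).times (serGF k (Dj σ M) (fun _ => θ) ω)).F
      (wu + (∑ i ∈ A, m i + ∑ i ∈ B, m i) • θ + (j : ℕ) • ω) :=
  ⟨fun x => coeff (j : ℕ) (C (u.fn x.1.1) * (pp L m A x.1.2.1 * pp L m B x.2.1))
      - if (j : ℕ) = M then 1 else 0,
    fun {S S'} _ _ _ _ φ c x => by
      show coeff (j : ℕ) (C (u.fn (Y.F.tw φ c x.1.1)) *
        (pp L m A (fun l => C (chr c θ) * twS ω φ c (x.1.2.1 l)) *
          pp L m B (fun l => C (chr c θ) * twS ω φ c (x.2.1 l)))) - _ = _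
      have h2 : C (chr c wu * φ (u.fn x.1.1)) *
          (pp L m A (fun l => C (chr c θ) * twS ω φ c (x.1.2.1 l)) *
            pp L m B (fun l => C (chr c θ) * twS ω φ c (x.2.1 l)))
          = C (chr c (wu + (∑ i ∈ A, m i + ∑ i ∈ B, m i) • θ)) * twS ω φ c
            (C (u.fn x.1.1) * (pp L m A x.1.2.1 * pp L m B x.2.1)) := by
        rw [pp_tw, pp_tw, map_mul (twS ω φ c), map_mul (twS ω φ c), twS_C, chr_add, add_smul,
          chr_add, map_mul C, map_mul C, map_mul C]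
        ring
      rw [u.fn_tw, h2, coeff_C_mul, coeff_twS, map_sub, mul_sub, ← mul_assoc, ← chr_add]
      congr 1
      split_ifs with h1
      · rw [h1, h, chr_zero, map_one, mul_one]
      · rw [map_zero, mul_zero]⟩

theorem FT_J2 (L : ι → σ → k) (m : ι → ℕ) (A B : Finset ι)
    (M : ℕ) (ω θ : QZ) {Y : Over k QZ β wβ} (hY : FT Y.F) {wu : QZ} (u : NF Y.F wu)
    (h : wu + (∑ i ∈ A, m i + ∑ i ∈ B, m i) • θ + M • ω = 0) : FT (J2 L m A B M ω θ Y u h).F :=
  FT.closed ((hY.prod (FT.ser (Dj_finite M) _ _)).prod (FT.ser (Dj_finite M) _ _))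
    (fun {S S'} _ _ _ _ φ c x hx => by
      have h1 := IsT_tw M h φ c _ hx
      have h2 : C (chr c wu * φ (u.fn x.1.1)) *
          (pp L m A (fun l => C (chr c θ) * twS ω φ c (x.1.2.1 l)) *
            pp L m B (fun l => C (chr c θ) * twS ω φ c (x.2.1 l)))
          = C (chr c (wu + (∑ i ∈ A, m i + ∑ i ∈ B, m i) • θ)) * twS ω φ c
            (C (u.fn x.1.1) * (pp L m A x.1.2.1 * pp L m B x.2.1)) := by
        rw [pp_tw, pp_tw, map_mul (twS ω φ c), map_mul (twS ω φ c), twS_C, chr_add, add_smul,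
          chr_add, map_mul C, map_mul C, map_mul C]
        ring
      show IsT M (C (u.fn (Y.F.tw φ c x.1.1)) * _)
      rw [u.fn_tw]
      have h3 := h2 ▸ h1
      exact h3)
    (cJ2 L m A B M ω θ Y u h) fun S _ _ x => by
    constructor
    · intro hx j
      exact sub_eq_zero.2 (hx j (Nat.lt_succ_iff.1 j.2))
    · intro hx j hj
      exact sub_eq_zero.1 (hx ⟨j, Nat.lt_succ_iff.2 hj⟩)

/-- the coefficients of the product of the powers of the forms -/
noncomputable def cO (L : ι → σ → k) (m : ι → ℕ) (A : Finset ι) (M : ℕ) (ω θ : QZ)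
    (Y : Over k QZ β wβ) (j : ℕ) :
    NF (Y.times (serGF k (Dj σ M) (fun _ => θ) ω)).F ((∑ i ∈ A, m i) • θ + j • ω) :=
  ⟨fun x => coeff j (pp L m A x.2.1), fun {S S'} _ _ _ _ φ c x => by
    show coeff j (pp L m A (fun l => C (chr c θ) * twS ω φ c (x.2.1 l))) = _
    rw [pp_tw, coeff_C_mul, coeff_twS, ← mul_assoc, ← chr_add]⟩

theorem FT_YO (L : ι → σ → k) (m : ι → ℕ) (A : Finset ι) (M M₁ : ℕ) (ω θ : QZ)
    {Y : Over k QZ β wβ} (hY : FT Y.F) : FT (YO L m A M M₁ ω θ Y).F := by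
  have h1 := FT.stp (X := Y.times (serGF k (Dj σ M) (fun _ => θ) ω))
    (hY.prod (FT.ser (Dj_finite M) _ _)) (n := M₁ + 1)
    (fun j : Fin (M₁ + 1) => cO L m A M ω θ Y (j : ℕ)) (Fin.last M₁)
  refine FT.of_equiv (F := (YO L m A M M₁ ω θ Y).F)
    (G := ((Y.times (serGF k (Dj σ M) (fun _ => θ) ω)).stp
      (fun j : Fin (M₁ + 1) => cO L m A M ω θ Y (j : ℕ)) (Fin.last M₁)).F) ⟨fun S _ _ =>
    { toFun := fun x => ⟨x.1, fun i hi => x.2.1 i hi, x.2.2⟩
      invFun := fun x => ⟨x.1, fun j hj => x.2.1 ⟨j, by omega⟩ hj, x.2.2⟩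
      left_inv := fun x => rfl
      right_inv := fun x => rfl }, fun φ c x => rfl⟩ h1

/-- the value of a form as a function on affine space -/
noncomputable def nlf (a : σ → k) (θ : QZ) : NF (GF.pi k (fun _ : σ => θ)) θ :=
  ⟨fun x => lf a x, fun φ c x => lf_tw0 a θ φ c x⟩

theorem FT_SS (L : ι → σ → k) (F G : Finset ι) (θ : QZ) : FT (SS L F G θ) := by
  classical
  have h1 : FT ((⟨GF.pi k (fun _ : σ => θ), fun b : Empty => b.elim⟩ :
      Over k QZ Empty (fun b => b.elim)).tor (fun i => nlf (L i) θ) F (F \ G)).F :=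
    FT.tor (FT.pi _) _ _ _
  refine FT.of_equiv (F := SS L F G θ) (G := ((⟨GF.pi k (fun _ : σ => θ), fun b : Empty => b.elim⟩ :
      Over k QZ Empty (fun b => b.elim)).tor (fun i => nlf (L i) θ) F (F \ G)).F) ⟨fun S _ _ =>
    { toFun := fun x => ⟨x.1, fun i hi => ⟨fun h => (x.2 i hi).2 (Finset.mem_sdiff.1 h).2,
        fun h => (x.2 i hi).1 (by
          by_contra h'
          exact h (Finset.mem_sdiff.2 ⟨hi, h'⟩))⟩⟩
      invFun := fun x => ⟨x.1, fun i hi => ⟨fun h => (x.2 i hi).2 (fun h' =>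
        (Finset.mem_sdiff.1 h').2 h), fun h => (x.2 i hi).1 (Finset.mem_sdiff.2 ⟨hi, h⟩)⟩⟩
      left_inv := fun x => rfl
      right_inv := fun x => rfl }, fun φ c x => rfl⟩ h1

theorem FT_PS (L : ι → σ → k) (F G : Finset ι) (i₀ : ι) : FT (PS L F G i₀) :=
  FT.closed (FT_SS L F G 0) (fun φ c x hx => by
    show lf (L i₀) (fun l => chr c 0 * φ (x.1 l)) = 1
    rw [lf_tw0, hx, map_one, chr_zero, one_mul]) (A := Unit) (w := fun _ => 0)
    (fun _ => (⟨fun x => lf (L i₀) x.1, fun φ c x => lf_tw0 (L i₀) 0 φ c x.1⟩ :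
      NF (SS L F G 0) 0).sub (NF.one _))
    fun S _ _ x => ⟨fun hx _ => sub_eq_zero.2 hx, fun hx => sub_eq_zero.1 (hx ())⟩

theorem FT_ONE {Y : Over k QZ β wβ} (hY : FT Y.F) {wu : QZ} (u : NF Y.F wu) (h : wu = 0) :
    FT (ONE Y u h).F :=
  FT.closed hY (fun φ c x hx => by
    rw [u.fn_tw, hx, map_one, mul_one, h, chr_zero]) (A := Unit) (w := fun _ => 0)
    (fun _ => (u.cast h).sub (NF.one _))
    fun S _ _ x => ⟨fun hx _ => sub_eq_zero.2 hx, fun hx => sub_eq_zero.1 (hx ())⟩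

theorem FT_TT {Y : Over k QZ β wβ} (hY : FT Y.F) {wh : QZ} (g : NF Y.F wh) {I : Type}
    [Fintype I] (a : I → ℕ) (wt : I → QZ) (hw : wh + ∑ i, a i • wt i = 0) :
    FT (TT Y g a wt hw).F :=
  FT.closed (hY.prod (FT.pi _)) (fun {S S'} _ _ _ _ φ c x hx => by
      have h2 : ∀ i : I, (chr c (wt i) * φ (x.2 i)) ^ a i = chr c (a i • wt i) * φ (x.2 i ^ a i) := by
        intro i
        rw [mul_pow, chr_nsmul, map_pow]
      have h3 : chr c wh * chr c (∑ i, a i • wt i) = 1 := by rw [← chr_add, hw, chr_zero]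
      have h4 := congrArg φ hx
      rw [map_mul, map_one] at h4
      show g.fn (Y.F.tw φ c x.1) * ∏ i, (chr c (wt i) * φ (x.2 i)) ^ a i = 1
      rw [g.fn_tw, Finset.prod_congr rfl fun i _ => h2 i, Finset.prod_mul_distrib, ← chr_sum,
        ← map_prod]
      calc _ = (chr c wh * chr c (∑ i, a i • wt i)) * (φ (g.fn x.1) * φ (∏ i, x.2 i ^ a i)) := by
            ring
        _ = 1 := by rw [h3, h4, one_mul]) (A := Unit) (w := fun _ => 0)
    (fun _ => ⟨fun x => g.fn x.1 * ∏ i, x.2 i ^ a i - 1, fun {S S'} _ _ _ _ φ c x => by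
      show g.fn (Y.F.tw φ c x.1) * ∏ i, (chr c (wt i) * φ (x.2 i)) ^ a i - 1 = _
      have h2 : ∀ i : I, (chr c (wt i) * φ (x.2 i)) ^ a i = chr c (a i • wt i) * φ (x.2 i ^ a i) := by
        intro i
        rw [mul_pow, chr_nsmul, map_pow]
      have h3 : chr c wh * chr c (∑ i, a i • wt i) = 1 := by rw [← chr_add, hw, chr_zero]
      rw [g.fn_tw, Finset.prod_congr rfl fun i _ => h2 i, Finset.prod_mul_distrib, ← chr_sum,
        ← map_prod, chr_zero, one_mul, map_sub, map_one, map_mul]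
      calc _ = (chr c wh * chr c (∑ i, a i • wt i)) * (φ (g.fn x.1) * φ (∏ i, x.2 i ^ a i)) - 1 := by
            ring
        _ = _ := by rw [h3, one_mul]⟩)
    fun S _ _ x => ⟨fun hx _ => sub_eq_zero.2 hx, fun hx => sub_eq_zero.1 (hx ())⟩

theorem FT_EE {Y : Over k QZ β wβ} (hY : FT Y.F) {wu : QZ} (u : NF Y.F wu) {P : GF k QZ}
    (hP : FT P) (g : NF P 0) (e : ℕ) (w : QZ) (h : wu + e • w = 0) : FT (EE Y u P g e w h).F :=
  FT_TT (hY.prod hP) _ _ _ _

end

end Pool.Agent.NDM
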