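import Pool.Agent.Helper78_NDM.Lib
import Pool.Agent.Helper32_ND.Stmts

/-!
# The zeta function of a hyperplane arrangement: statements of the modules
-/

set_option autoImplicit false
set_option linter.unusedVariables false
set_option linter.unusedSectionVars false

namespace Pool.Agent.NDM

open PowerSeries Finset Pool.Agent.Helper6_Mono Pool.Agent.Helper32_OMP

/-! ## Part D: the step from the closed subsets to a set of forms -/

/-- MODULE SCL: scaling `v = t v'` -/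
def SclStmt : Prop :=
  ∀ (k : Type) [Field k] (σ ι : Type) [Fintype σ] (β : Type) (wβ : β → QZ) (R : Type 1)
    [CommRing R] (L0 : Rˣ) (χ : SInv k wβ L0) (L : ι → σ → k) (m : ι → ℕ) (F : Finset ι),
    0 < ∑ i ∈ F, m i → ∀ (Y : Over k QZ β wβ), FT Y.F → ∀ (wu : QZ) (u : NF Y.F wu) (ω θ : QZ),
    (∀ (M : ℕ) (h : wu + (∑ i ∈ F, m i) • θ + M • ω = 0), M < ∑ i ∈ F, m i →
      χ.χ (JJ L m F M ω θ Y u h) = 0) ∧
    (∀ (M : ℕ) (h : wu + (∑ i ∈ F, m i) • θ + (M + ∑ i ∈ F, m i) • ω = 0)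
      (h' : wu + (∑ i ∈ F, m i) • (θ + ω) + M • ω = 0),
      χ.χ (JJ L m F (M + ∑ i ∈ F, m i) ω θ Y u h)
        = (L0 : R) ^ (Fintype.card σ * (∑ i ∈ F, m i - 1)) * χ.χ (JZ L m F M ω (θ + ω) Y u h'))

/-- MODULE STS: stratification by `v(0)` -/
def StsStmt : Prop :=
  ∀ (k : Type) [Field k] (σ ι : Type) [Fintype σ] [DecidableEq ι] (β : Type) (wβ : β → QZ)
    (R : Type 1) [CommRing R] (L0 : Rˣ) (χ : SInv k wβ L0) (L : ι → σ → k) (m : ι → ℕ)
    (F : Finset ι) (Y : Over k QZ β wβ), FT Y.F → ∀ (wu : QZ) (u : NF Y.F wu) (M : ℕ) (ω θ : QZ)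
    (h : wu + (∑ i ∈ F, m i) • θ + M • ω = 0),
    χ.χ (JZ L m F M ω θ Y u h) = ∑ G ∈ F.powerset, if hG : G ⊆ F then
      χ.χ (JJ L m G M ω θ (Y.times (SS L F G θ)) (ug Y u (gS L m F G θ)) (hstr hG m h)) else 0

/-- MODULE EMP: strata of sets which are not closed are empty -/
def EmpStmt : Prop :=
  ∀ (k : Type) [Field k] (σ ι : Type) [Fintype σ] (L : ι → σ → k) (F G : Finset ι) (i : ι),
    G ⊆ F → i ∈ F → i ∉ G → L i ∈ spn L G → ∀ (θ : QZ) (S : Type) [CommRing S] [Algebra k S]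
    (x : (SS L F G θ).obj S), (1 : S) = 0

/-- MODULE KER: the stratum `G = F` is a linear space -/
def KerStmt : Prop :=
  ∀ (k : Type) [Field k] (σ ι : Type) [Fintype σ] [DecidableEq ι] (β : Type) (wβ : β → QZ)
    (R : Type 1) [CommRing R] (L0 : Rˣ) (χ : SInv k wβ L0) (L : ι → σ → k) (m : ι → ℕ)
    (F : Finset ι) (Y : Over k QZ β wβ), FT Y.F → ∀ (wu : QZ) (u : NF Y.F wu) (M : ℕ) (ω θ : QZ)
    (h : wu + (∑ i ∈ F, m i) • θ + M • ω = 0)
    (h' : (wu + (∑ i ∈ F \ F, m i) • θ) + (∑ i ∈ F, m i) • θ + M • ω = 0),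
    rk L F ≤ Fintype.card σ ∧
    χ.χ (JJ L m F M ω θ (Y.times (SS L F F θ)) (ug Y u (gS L m F F θ)) h')
      = (L0 : R) ^ (Fintype.card σ - rk L F) * χ.χ (JJ L m F M ω θ Y u h)

/-- MODULE BAS: no forms -/
def BasStmt : Prop :=
  ∀ (k : Type) [Field k] (σ ι : Type) [Fintype σ] (β : Type) (wβ : β → QZ) (R : Type 1)
    [CommRing R] (L0 : Rˣ) (χ : SInv k wβ L0) (L : ι → σ → k) (m : ι → ℕ)
    (Y : Over k QZ β wβ), FT Y.F → ∀ (wu : QZ) (u : NF Y.F wu) (ω θ : QZ),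
    (∀ (M : ℕ) (h : wu + (∑ i ∈ (∅ : Finset ι), m i) • θ + M • ω = 0), 0 < M →
      χ.χ (JJ L m ∅ M ω θ Y u h) = 0) ∧
    (∀ (h : wu + (∑ i ∈ (∅ : Finset ι), m i) • θ + 0 • ω = 0) (h0 : wu = 0),
      χ.χ (JJ L m ∅ 0 ω θ Y u h) = χ.χ (ONE Y u h0))

/-- MODULE GMS: the strata are products with the multiplicative group -/
def GmsStmt : Prop :=
  ∀ (k : Type) [Field k] (σ ι : Type) [Fintype σ] [DecidableEq ι] (β : Type) (wβ : β → QZ)
    (R : Type 1) [CommRing R] (L0 : Rˣ) (χ : SInv k wβ L0) (L : ι → σ → k) (m : ι → ℕ)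
    (F G : Finset ι) (i₀ : ι), G ⊆ F → i₀ ∈ F → i₀ ∉ G → 0 < m i₀ →
    ∀ (Y : Over k QZ β wβ), FT Y.F → ∀ (wu : QZ) (u : NF Y.F wu) (θ : QZ),
    (∀ (P : GF k QZ), FT P → ∀ (g : NF P 0) (e : ℕ) (w : QZ), 0 < e →
      ∀ (h : (wu + (∑ i ∈ F \ G, m i) • θ) + e • w = 0)
      (h' : wu + Nat.gcd (∑ i ∈ F \ G, m i) e • (((∑ i ∈ F \ G, m i) /
        Nat.gcd (∑ i ∈ F \ G, m i) e) • θ + (e / Nat.gcd (∑ i ∈ F \ G, m i) e) • w) = 0),
      χ.χ (EE (Y.times (SS L F G θ)) (ug Y u (gS L m F G θ)) P g e w h)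
        = ((L0 : R) - 1) * χ.χ (EE Y u ((PS L F G i₀).prod P) (gg (gP L m F G i₀) g)
          (Nat.gcd (∑ i ∈ F \ G, m i) e) (((∑ i ∈ F \ G, m i) /
            Nat.gcd (∑ i ∈ F \ G, m i) e) • θ + (e / Nat.gcd (∑ i ∈ F \ G, m i) e) • w) h')) ∧
    (∀ (h : wu + (∑ i ∈ F \ G, m i) • θ = 0),
      χ.χ (ONE (Y.times (SS L F G θ)) (ug Y u (gS L m F G θ)) h)
        = χ.χ (EE Y u (PS L F G i₀) (gP L m F G i₀) (∑ i ∈ F \ G, m i) θ h))

/-- MODULE DN1: one step of the recursion -/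
def Dn1Stmt : Prop :=
  ∀ (k : Type) [Field k] (σ ι : Type) [Fintype σ] [DecidableEq ι] (R : Type 1) [CommRing R]
    (L0 : Rˣ) (L : ι → σ → k) (m : ι → ℕ) (F : Finset ι) (S : Set ℚ), F.Nonempty →
    (∀ i, 0 < m i) → (∀ i ∈ F, L i ≠ 0) →
    (∀ G, ClIn L F G → G.Nonempty → G ≠ F → HasDat L0 L m G S) →
    ∃ D : Dat k L0 (∑ i ∈ F, m i) S, ∀ (β : Type) (wβ : β → QZ) (χ : SInv k wβ L0)
      (Y : Over k QZ β wβ), FT Y.F → ∀ (wu : QZ) (u : NF Y.F wu) (ω θ : QZ),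
      (∀ (M : ℕ) (h : wu + (∑ i ∈ F, m i) • θ + M • ω = 0), M < ∑ i ∈ F, m i →
        χ.χ (JJ L m F M ω θ Y u h) = 0) ∧
      (∀ (M : ℕ) (h : wu + (∑ i ∈ F, m i) • θ + (M + ∑ i ∈ F, m i) • ω = 0)
        (h' : wu + (∑ i ∈ F, m i) • (θ + ω) + M • ω = 0),
        Li L0 ^ (Fintype.card σ * (M + ∑ i ∈ F, m i)) *
            χ.χ (JJ L m F (M + ∑ i ∈ F, m i) ω θ Y u h)
          = Li L0 ^ rk L F * (Li L0 ^ (Fintype.card σ * M) * χ.χ (JJ L m F M ω (θ + ω) Y u h'))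
            + D.val χ M ω (θ + ω) Y u h')

/-- MODULE DN2: summation of the recursion -/
def Dn2Stmt : Prop :=
  ∀ (k : Type) [Field k] (σ ι : Type) [Fintype σ] [DecidableEq ι] (R : Type 1) [CommRing R]
    (L0 : Rˣ) (L : ι → σ → k) (m : ι → ℕ) (F : Finset ι) (S : Set ℚ), F.Nonempty →
    (∀ i, 0 < m i) → (∀ i ∈ F, L i ≠ 0) →
    (∀ G, ClIn L F G → G.Nonempty → G ≠ F → HasDat L0 L m G S) →
    HasDat L0 L m F (S ∪ {(rk L F : ℚ) / ((∑ i ∈ F, m i : ℕ) : ℚ)})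

/-! ## Part P: independent sets of forms -/

/-- MODULE PIM: a projection which separates independent sets -/
def PimStmt : Prop :=
  ∀ (k : Type) [Field k] (σ ι : Type) [Fintype σ] [DecidableEq σ] (L : ι → σ → k)
    (A B : Finset ι), Disjoint (spn L A) (spn L B) → ∃ p : Matrix σ σ k, p * p = p ∧
    (∀ i ∈ A, Matrix.vecMul (L i) p = L i) ∧ ∀ i ∈ B, Matrix.vecMul (L i) p = 0

/-- MODULE DBL: doubling of the jets -/
def DblStmt : Prop :=
  ∀ (k : Type) [Field k] (σ ι : Type) [Fintype σ] [DecidableEq ι] (β : Type) (wβ : β → QZ)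
    (R : Type 1) [CommRing R] (L0 : Rˣ) (χ : SInv k wβ L0) (L : ι → σ → k) (m : ι → ℕ)
    (A B : Finset ι), Disjoint A B → Disjoint (spn L A) (spn L B) →
    ∀ (Y : Over k QZ β wβ), FT Y.F → ∀ (wu : QZ) (u : NF Y.F wu) (M : ℕ) (ω θ : QZ)
    (h : wu + (∑ i ∈ A ∪ B, m i) • θ + M • ω = 0)
    (h' : wu + (∑ i ∈ A, m i + ∑ i ∈ B, m i) • θ + M • ω = 0),
    (L0 : R) ^ (Fintype.card σ * M) * χ.χ (JJ L m (A ∪ B) M ω θ Y u h)
      = χ.χ (J2 L m A B M ω θ Y u h')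

/-- the weights on the stratum of order `M₁` -/
theorem hYO {wu θ ω : QZ} {a b M M₁ M₂ : ℕ} (h : wu + (a + b) • θ + M • ω = 0)
    (hM : M₁ + M₂ = M) : (wu + (a • θ + M₁ • ω)) + b • θ + M₂ • ω = 0 := by
  rw [← h, ← hM, add_smul, add_smul]
  abel

open Classical in
/-- MODULE SPL: stratification by the order of the first factor -/
def SplStmt : Prop :=
  ∀ (k : Type) [Field k] (σ ι : Type) [Fintype σ] (β : Type) (wβ : β → QZ)
    (R : Type 1) [CommRing R] (L0 : Rˣ) (χ : SInv k wβ L0) (L : ι → σ → k) (m : ι → ℕ)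
    (A B : Finset ι) (Y : Over k QZ β wβ), FT Y.F → ∀ (wu : QZ) (u : NF Y.F wu) (M : ℕ) (ω θ : QZ)
    (h : wu + (∑ i ∈ A, m i + ∑ i ∈ B, m i) • θ + M • ω = 0),
    χ.χ (J2 L m A B M ω θ Y u h) = ∑ p ∈ antidiagonal M, if hp : p.1 + p.2 = M then
      (L0 : R) ^ (Fintype.card σ * (M - p.2)) *
        χ.χ (JJ L m B p.2 ω θ (YO L m A M p.1 ω θ Y) (uO L m A M p.1 ω θ Y u) (hYO h hp)) else 0

/-- MODULE SWP: exchange of the order of the fibrations -/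
def SwpStmt : Prop :=
  ∀ (k : Type) [Field k] (σ ι : Type) [Fintype σ] (β : Type) (wβ : β → QZ)
    (R : Type 1) [CommRing R] (L0 : Rˣ) (χ : SInv k wβ L0) (L : ι → σ → k) (m : ι → ℕ)
    (A : Finset ι) (Y : Over k QZ β wβ), FT Y.F → ∀ (wu : QZ) (u : NF Y.F wu) (M M₁ : ℕ)
    (ω θ : QZ), M₁ ≤ M → ∀ (P : GF k QZ), FT P → ∀ (g : NF P 0) (e : ℕ) (w : QZ), 0 < e →
    ∀ (h : (wu + ((∑ i ∈ A, m i) • θ + M₁ • ω)) + e • w = 0)
      (h' : (wu + e • w) + (∑ i ∈ A, m i) • θ + M₁ • ω = 0),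
    χ.χ (EE (YO L m A M M₁ ω θ Y) (uO L m A M M₁ ω θ Y u) P g e w h)
      = (L0 : R) ^ (Fintype.card σ * (M - M₁)) *
        χ.χ (JJ L m A M₁ ω θ ((Y.times P).times (GF.line k w)) (ugx Y u P g e w) h')

/-- MODULE TR2: two coordinates are reduced to one -/
def Tr2Stmt : Prop :=
  ∀ (k : Type) [Field k] (β : Type) (wβ : β → QZ)
    (R : Type 1) [CommRing R] (L0 : Rˣ) (χ : SInv k wβ L0)
    (Y : Over k QZ β wβ), FT Y.F → ∀ (wu : QZ) (u : NF Y.F wu)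
    (P : GF k QZ), FT P → ∀ (g : NF P 0) (e : ℕ) (w : QZ), 0 < e →
    ∀ (P' : GF k QZ), FT P' → ∀ (g' : NF P' 0) (e' : ℕ) (w' : QZ), 0 < e' →
    ∀ (h : (wu + e • w) + e' • w' = 0)
      (h' : wu + Nat.gcd e e' • ((e / Nat.gcd e e') • w + (e' / Nat.gcd e e') • w') = 0),
    χ.χ (EE ((Y.times P).times (GF.line k w)) (ugx Y u P g e w) P' g' e' w' h)
      = ((L0 : R) - 1) * χ.χ (EE Y u (P.prod P') (gg g g') (Nat.gcd e e')
        ((e / Nat.gcd e e') • w + (e' / Nat.gcd e e') • w') h')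

/-- MODULE PRD: independent sets -/
def PrdStmt : Prop :=
  ∀ (k : Type) [Field k] (σ ι : Type) [Fintype σ] [DecidableEq ι] (R : Type 1) [CommRing R]
    (L0 : Rˣ) (L : ι → σ → k) (m : ι → ℕ) (A B : Finset ι) (S T : Set ℚ),
    Disjoint A B → Disjoint (spn L A) (spn L B) → HasDat L0 L m A S → HasDat L0 L m B T →
    HasDat L0 L m (A ∪ B) (S ∪ T)

/-- MODULE DAT: formulas for all nonempty sets of forms -/
def DatStmt : Prop :=
  ∀ (k : Type) [Field k] (σ ι : Type) [Fintype σ] [DecidableEq ι] (R : Type 1) [CommRing R]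
    (L0 : Rˣ) (L : ι → σ → k) (m : ι → ℕ), (∀ i, 0 < m i) → ∀ (F : Finset ι), F.Nonempty →
    (∀ i ∈ F, L i ≠ 0) → HasDat L0 L m F {q | ∃ W : Finset ι, W.Nonempty ∧ ClIn L F W ∧
      ConnS L W ∧ q = (rk L W : ℚ) / ((∑ i ∈ W, m i : ℕ) : ℚ)}

/-! ## Part Z: affine arrangements -/

section top

variable {k : Type} [Field k] {σ ι : Type} [Fintype σ]

/-- the linear part of a polynomial -/
noncomputable def lpk (a : MvPolynomial σ k) : σ → k :=
  fun l => MvPolynomial.coeff (Finsupp.single l 1) a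

/-- the points of affine space at which the functions of index in `F` vanish and the others are
invertible -/
@[reducible] noncomputable def ZZ (a : ι → MvPolynomial σ k) (F : Finset ι) :
    Over k QZ σ (fun _ => (0 : QZ)) :=
  (affY k σ (0 : QZ)).sub (fun S _ _ x => ∀ i, (i ∈ F → MvPolynomial.aeval x (a i) = 0) ∧
      (i ∉ F → IsUnit (MvPolynomial.aeval x (a i))))
    (fun {S S'} _ _ _ _ φ c x hx i => by
      have h1 : MvPolynomial.aeval (fun l => chr c 0 * φ (x l)) (a i)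
          = chr c 0 * φ (MvPolynomial.aeval x (a i)) :=
        aeval_tw (hom_zero (a i)) φ c x
      show (i ∈ F → MvPolynomial.aeval (fun l => chr c 0 * φ (x l)) (a i) = 0) ∧
        (i ∉ F → IsUnit (MvPolynomial.aeval (fun l => chr c 0 * φ (x l)) (a i)))
      rw [h1]
      refine ⟨fun h => ?_, fun h => (chr_isUnit c _).mul (((hx i).2 h).map φ)⟩
      rw [(hx i).1 h, map_zero, mul_zero])

variable [Fintype ι] [DecidableEq ι]

/-- the function `c ∏_{i ∉ F} a_i(y)^{m_i}` -/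
@[reducible] noncomputable def uZ (a : ι → MvPolynomial σ k) (m : ι → ℕ) (c : k) (F : Finset ι) :
    NF (ZZ a F).F 0 :=
  ⟨fun {S} _ _ x => algebraMap k S c * ∏ i ∈ univ \ F, MvPolynomial.aeval x.1 (a i) ^ m i,
    fun {S S'} _ _ _ _ φ χ x => by
      have h1 : ∀ i, MvPolynomial.aeval (fun l => chr χ 0 * φ (x.1 l)) (a i)
          = φ (MvPolynomial.aeval x.1 (a i)) := by
        intro i
        rw [aeval_tw (hom_zero (a i)) φ χ x.1, chr_zero, one_mul]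
      show algebraMap k S' c * ∏ i ∈ univ \ F,
        MvPolynomial.aeval (fun l => chr χ 0 * φ (x.1 l)) (a i) ^ m i = _
      rw [Finset.prod_congr rfl fun i _ => by rw [h1 i], chr_zero, one_mul, map_mul, map_prod,
        AlgHom.commutes]
      simp only [map_pow]⟩

theorem hZ0 (n m : ℕ) (hω : m • om m = 0) : (0 : QZ) + n • (0 : QZ) + m • om m = 0 := by
  rw [smul_zero, zero_add, zero_add, hω]

end top

/-- MODULE TOP: the jets of the arrangement are stratified by the forms which vanish at the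
centre -/
def TopStmt : Prop :=
  ∀ (k : Type) [Field k] (σ ι : Type) [Fintype σ] [Fintype ι] [DecidableEq ι] (R : Type 1)
    [CommRing R] (L0 : Rˣ) (χ : SInv k (fun _ : σ => (0 : QZ)) L0) (a : ι → MvPolynomial σ k),
    (∀ i, (a i).totalDegree = 1) → ∀ (m : ι → ℕ), (∀ i, 0 < m i) → ∀ (c : k), c ≠ 0 →
    ∀ (M : ℕ) (hM : M ≠ 0) (hω : M • om M = 0),
    χ.χ ((FibK k σ (om M) M hω).app (Jet (MvPolynomial.C c * ∏ i, a i ^ m i) Set.univ M (om M)))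
      = ∑ F ∈ (univ : Finset (Finset ι)).erase ∅,
        χ.χ (JJ (fun i => lpk (a i)) m F M (om M) 0 (ZZ a F) (uZ a m c F) (hZ0 _ M hω))

/-- MODULE ZEM: strata without complex points are empty -/
def ZemStmt : Prop :=
  ∀ (k : Type) [Field k] [Algebra k ℂ] (σ ι : Type) [Fintype σ] [Fintype ι]
    (a : ι → MvPolynomial σ k) (F : Finset ι),
    (∀ z : σ → ℂ, ¬ ∀ i, MvPolynomial.aeval z (a i) = 0 ↔ i ∈ F) →
    ∀ (S : Type) [CommRing S] [Algebra k S] (x : (ZZ a F).F.obj S), (1 : S) = 0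

/-- MODULE ZRA: rationality -/
def ZraStmt : Prop :=
  ∀ (k : Type) [Field k] [Algebra k ℂ] (σ ι : Type) [Fintype σ] [Fintype ι] [DecidableEq ι]
    (R : Type 1) [CommRing R] (L0 : Rˣ) (χ : SInv k (fun _ : σ => (0 : QZ)) L0)
    (a : ι → MvPolynomial σ k), (∀ i, (a i).totalDegree = 1) → ∀ (m : ι → ℕ), (∀ i, 0 < m i) →
    ∀ (c : k), c ≠ 0 →
    ∃ s : ℕ → R, s 0 = 0 ∧
      RP L0 (steps {q | ∃ (z : σ → ℂ) (F W : Finset ι),
        (∀ i, MvPolynomial.aeval z (a i) = 0 ↔ i ∈ F) ∧ W.Nonempty ∧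
        ClIn (fun i => lpk (a i)) F W ∧ ConnS (fun i => lpk (a i)) W ∧
        q = (rk (fun i => lpk (a i)) W : ℚ) / ((∑ i ∈ W, m i : ℕ) : ℚ)}) s ∧
      ∀ (M : ℕ) (hM : M ≠ 0) (hω : M • om M = 0), s M = Li L0 ^ (M * Fintype.card σ) *
        χ.χ ((FibK k σ (om M) M hω).app
          (Jet (MvPolynomial.C c * ∏ i, a i ^ m i) Set.univ M (om M)))

/-! ## Part R: the roots -/

/-- MODULE GPT: the generic point of a closed subset -/
def GptStmt : Prop :=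
  ∀ (k : Type) [Field k] [Algebra k ℂ] (σ ι : Type) [Fintype σ] [Fintype ι]
    (a : ι → MvPolynomial σ k), (∀ i, (a i).totalDegree = 1) → ∀ (z : σ → ℂ) (F W : Finset ι),
    (∀ i, MvPolynomial.aeval z (a i) = 0 ↔ i ∈ F) → ClIn (fun i => lpk (a i)) F W →
    ∃ z' : σ → ℂ, ∀ i, MvPolynomial.aeval z' (a i) = 0 ↔ i ∈ W

/-- MODULE BCH: base change of spans -/
def BchStmt : Prop :=
  ∀ (k : Type) [Field k] [Algebra k ℂ] (σ ι : Type) [Fintype σ] (L : ι → σ → k)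
    (A B : Set ι),
    Module.finrank ℂ (Submodule.span ℂ ((fun i l => algebraMap k ℂ (L i l)) '' A))
      = Module.finrank k (Submodule.span k (L '' A)) ∧
    (Disjoint (Submodule.span ℂ ((fun i l => algebraMap k ℂ (L i l)) '' A))
      (Submodule.span ℂ ((fun i l => algebraMap k ℂ (L i l)) '' B)) →
      Disjoint (Submodule.span k (L '' A)) (Submodule.span k (L '' B)))

/-- MODULE RTS: the slopes are roots of the Bernstein-Sato polynomial -/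
def RtsStmt : Prop :=
  ∀ (k : Type) [Field k] [Algebra k ℂ] (σ ι : Type) [Fintype σ] [Fintype ι]
    (a : ι → MvPolynomial σ k), (∀ i, (a i).totalDegree = 1) → ∀ (m : ι → ℕ), (∀ i, 0 < m i) →
    ∀ (c : k), c ≠ 0 → ∀ (z : σ → ℂ) (F W : Finset ι),
    (∀ i, MvPolynomial.aeval z (a i) = 0 ↔ i ∈ F) → W.Nonempty →
    ClIn (fun i => lpk (a i)) F W → ConnS (fun i => lpk (a i)) W →
    (bfun (MvPolynomial.map (algebraMap k ℂ) (MvPolynomial.C c * ∏ i, a i ^ m i))).eval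
      (-((rk (fun i => lpk (a i)) W : ℕ) : ℂ) / ((∑ i ∈ W, m i : ℕ) : ℂ)) = 0

/-- the main theorem: the equivariant motivic monodromy conjecture for hyperplane arrangements -/
def MainStmt : Prop :=
  ∀ (k : Type) [Field k] [Algebra k ℂ] (σ ι : Type) [Fintype σ] [Fintype ι] [Nonempty ι]
    (a : ι → MvPolynomial σ k), (∀ i, (a i).totalDegree = 1) → ∀ (m : ι → ℕ), (∀ i, 0 < m i) →
    ∀ (c : k), c ≠ 0 →
    ∃ S : Finset (ℤ × ℕ),
      (∀ p ∈ S, p.1 < 0 ∧ 0 < p.2 ∧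
        (bfun (MvPolynomial.map (algebraMap k ℂ) (MvPolynomial.C c * ∏ i, a i ^ m i))).eval
          ((p.1 : ℂ) / (p.2 : ℂ)) = 0) ∧
      Zf (MvPolynomial.C c * ∏ i, a i ^ m i) ∈ zetaRing (MvPolynomial.C c * ∏ i, a i ^ m i) S

end Pool.Agent.NDM
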